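import Mathlib

/-!
Project RA (helper57): lower bounds for bounded holomorphic functions `Φ(z, t)`, `Re t → -∞`, which are
periodic in `t`.
-/

set_option autoImplicit false

namespace Pool.Agent.Helper57.RA

open Filter Topology Metric Function

/-- the point `i κ` -/
noncomputable def ik {n : ℕ} (κ : Fin n → ℝ) : Fin n → ℂ := fun l => Complex.I * (κ l : ℂ)

/-- the function of `q = e^{t/N}` -/
theorem cusp {N : ℕ} (hN : 0 < N) {t0 C : ℝ} {f : ℂ → ℂ}
    (h2 : DifferentiableOn ℂ f {t | t.re < t0}) (h3 : ∀ t : ℂ, t.re < t0 → ‖f t‖ ≤ C)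
    (h4 : ∀ t : ℂ, t.re < t0 → f (t + 2 * Real.pi * Complex.I * N) = f t) :
    ∃ F : ℂ → ℂ, DifferentiableOn ℂ F (ball 0 (Real.exp (t0 / N))) ∧
      (∀ q ∈ ball (0 : ℂ) (Real.exp (t0 / N)), ‖F q‖ ≤ C) ∧
      ∀ t : ℂ, t.re < t0 → F (Complex.exp (t / N)) = f t := by
  have hN0 : (N : ℂ) ≠ 0 := by exact_mod_cast hN.ne'
  have hNr : (0 : ℝ) < N := by exact_mod_cast hN
  set h : ℝ := 2 * Real.pi * N with hh
  have hpos : 0 < h := by positivity
  set g : ℂ → ℂ := fun τ => if -τ.im < t0 then f (Complex.I * τ) else 0 with hg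
  have hre : ∀ τ : ℂ, (Complex.I * τ).re = -τ.im := by intro τ; simp
  have hper : Periodic g h := by
    intro τ
    simp only [hg]
    have e1 : (τ + (h : ℂ)).im = τ.im := by simp
    rw [e1]
    by_cases hτ : -τ.im < t0
    · rw [if_pos hτ, if_pos hτ]
      rw [← h4 (Complex.I * τ) (by rw [hre]; exact hτ)]
      congr 1
      rw [hh]; push_cast; ring
    · rw [if_neg hτ, if_neg hτ]
  have hopen : IsOpen {τ : ℂ | -τ.im < t0} := isOpen_lt (by fun_prop) continuous_const
  have hdiff : ∀ τ : ℂ, -τ.im < t0 → DifferentiableAt ℂ g τ := by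
    intro τ hτ
    have hopen2 : IsOpen {t : ℂ | t.re < t0} := isOpen_lt Complex.continuous_re continuous_const
    have e1 : DifferentiableAt ℂ f (Complex.I * τ) :=
      h2.differentiableAt (hopen2.mem_nhds (by show (Complex.I * τ).re < t0; rw [hre]; exact hτ))
    have e2 : DifferentiableAt ℂ (fun τ : ℂ => f (Complex.I * τ)) τ :=
      e1.comp τ (differentiableAt_id.const_mul _)
    refine e2.congr_of_eventuallyEq ?_
    filter_upwards [hopen.mem_nhds hτ] with σ hσ
    simp only [hg]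
    rw [if_pos hσ]
  have hq : ∀ τ : ℂ, Periodic.qParam h τ = Complex.exp (Complex.I * τ / N) := by
    intro τ
    unfold Periodic.qParam
    congr 1
    rw [hh]
    push_cast
    have : (Real.pi : ℂ) ≠ 0 := by exact_mod_cast Real.pi_ne_zero
    field_simp
  set F := Periodic.cuspFunction h g with hF
  have hFt : ∀ t : ℂ, t.re < t0 → F (Complex.exp (t / N)) = f t := by
    intro t ht
    have e1 := Periodic.eq_cuspFunction hpos.ne' hper (-Complex.I * t)
    rw [hq] at e1
    have e2 : Complex.I * (-Complex.I * t) = t := by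
      rw [← mul_assoc, mul_neg, Complex.I_mul_I]; ring
    rw [e2] at e1
    rw [hF, e1]
    simp only [hg]
    have e3 : -(-Complex.I * t).im = t.re := by simp
    rw [e3, if_pos ht, e2]
  have hlog : ∀ q : ℂ, q ≠ 0 → q ∈ ball (0 : ℂ) (Real.exp (t0 / N)) → (N * Complex.log q).re < t0 := by
    intro q hq0 hqb
    rw [mem_ball_zero_iff] at hqb
    have e1 : Real.log ‖q‖ < t0 / N := by
      rw [← Real.log_exp (t0 / N)]
      exact Real.log_lt_log (norm_pos_iff.2 hq0) hqb
    have e2 : (N * Complex.log q).re = N * Real.log ‖q‖ := by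
      rw [show (N : ℂ) = ((N : ℝ) : ℂ) by norm_cast, Complex.re_ofReal_mul, Complex.log_re]
    rw [e2]
    rw [lt_div_iff₀ hNr] at e1
    linarith
  have hexplog : ∀ q : ℂ, q ≠ 0 → Complex.exp (N * Complex.log q / N) = q := by
    intro q hq0
    rw [mul_div_cancel_left₀ _ hN0, Complex.exp_log hq0]
  have hbd : ∀ q : ℂ, q ≠ 0 → q ∈ ball (0 : ℂ) (Real.exp (t0 / N)) → ‖F q‖ ≤ C := by
    intro q hq0 hqb
    have := hFt _ (hlog q hq0 hqb)
    rw [hexplog q hq0] at this
    rw [this]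
    exact h3 _ (hlog q hq0 hqb)
  have hd0 : DifferentiableAt ℂ F 0 := by
    apply Periodic.differentiableAt_cuspFunction_zero hpos hper
    · have : ∀ᶠ τ : ℂ in comap Complex.im atTop, -t0 < τ.im :=
        tendsto_comap.eventually (eventually_gt_atTop (-t0))
      filter_upwards [this] with τ hτ
      exact hdiff τ (by linarith)
    · have : ∀ᶠ τ : ℂ in comap Complex.im atTop, -t0 < τ.im :=
        tendsto_comap.eventually (eventually_gt_atTop (-t0))
      refine Asymptotics.IsBigO.of_bound C ?_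
      filter_upwards [this] with τ hτ
      simp only [hg]
      rw [if_pos (by linarith)]
      simp only [Pi.one_apply, norm_one, mul_one]
      exact h3 _ (by rw [hre]; linarith)
  refine ⟨F, ?_, ?_, hFt⟩
  · intro q hqb
    refine DifferentiableAt.differentiableWithinAt ?_
    by_cases hq0 : q = 0
    · rw [hq0]; exact hd0
    · have e1 := Periodic.differentiableAt_cuspFunction hpos.ne' hper
        (hdiff (-Complex.I * (N * Complex.log q)) (by
          have : -(-Complex.I * (N * Complex.log q)).im = (N * Complex.log q).re := by simp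
          rw [this]
          exact hlog q hq0 hqb))
      rw [hq] at e1
      have e2 : Complex.I * (-Complex.I * (N * Complex.log q)) = N * Complex.log q := by
        rw [← mul_assoc, mul_neg, Complex.I_mul_I]; ring
      rw [e2, hexplog q hq0] at e1
      exact e1
  · intro q hqb
    by_cases hq0 : q = 0
    · rw [hq0]
      have e1 : Tendsto (fun q => ‖F q‖) (𝓝[≠] 0) (𝓝 ‖F 0‖) :=
        (hd0.continuousAt.tendsto.mono_left nhdsWithin_le_nhds).norm
      refine le_of_tendsto e1 ?_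
      have e2 : ∀ᶠ q : ℂ in 𝓝[≠] 0, q ∈ ball (0 : ℂ) (Real.exp (t0 / N)) :=
        nhdsWithin_le_nhds (ball_mem_nhds _ (Real.exp_pos _))
      filter_upwards [e2, self_mem_nhdsWithin] with q h1 h2
      exact hbd q h2 h1
    · exact hbd q hq0 hqb

/-- **the lower bound** -/
theorem lower {n : ℕ} {κ0 : Fin n → ℝ} {r t0 C : ℝ} {N : ℕ} (hN : 0 < N)
    {Φ : (Fin n → ℂ) → ℂ → ℂ}
    (h1 : ∀ t : ℂ, t.re < t0 → DifferentiableOn ℂ (fun z => Φ z t) (ball (ik κ0) r))
    (h2 : ∀ z ∈ ball (ik κ0) r, DifferentiableOn ℂ (Φ z) {t | t.re < t0})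
    (h3 : ∀ z ∈ ball (ik κ0) r, ∀ t : ℂ, t.re < t0 → ‖Φ z t‖ ≤ C)
    (h4 : ∀ z ∈ ball (ik κ0) r, ∀ t : ℂ, t.re < t0 → Φ z (t + 2 * Real.pi * Complex.I * N) = Φ z t)
    (h5 : ∃ z ∈ ball (ik κ0) r, ∃ t : ℂ, t.re < t0 ∧ Φ z t ≠ 0) :
    ∃ (k : ℕ) (κ1 : Fin n → ℝ) (r1 t1 c : ℝ), 0 < r1 ∧ 0 < c ∧ t1 ≤ t0 ∧
      ball (ik κ1) r1 ⊆ ball (ik κ0) r ∧
      ∀ z ∈ ball (ik κ1) r1, ∀ t : ℝ, t < t1 → c * Real.exp (t / N) ^ k ≤ ‖Φ z t‖ := by
  classical
  have hNr : (0 : ℝ) < N := by exact_mod_cast hN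
  set B := ball (ik κ0) r with hB
  set q0 : ℝ := Real.exp (t0 / N) with hq0
  have hq0p : 0 < q0 := Real.exp_pos _
  have hcusp : ∀ z : Fin n → ℂ, ∃ F : ℂ → ℂ, z ∈ B → DifferentiableOn ℂ F (ball 0 q0) ∧
      (∀ q ∈ ball (0 : ℂ) q0, ‖F q‖ ≤ C) ∧
      ∀ t : ℂ, t.re < t0 → F (Complex.exp (t / N)) = Φ z t := by
    intro z
    by_cases hz : z ∈ B
    · obtain ⟨F, a1, a2, a3⟩ := cusp hN (h2 z hz) (h3 z hz) (h4 z hz)
      exact ⟨F, fun _ => ⟨a1, a2, a3⟩⟩
    · exact ⟨fun _ => 0, fun h => absurd h hz⟩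
  choose F hF using hcusp
  obtain ⟨zs, hzs, ts, hts, hne⟩ := h5
  have hC0 : 0 ≤ C := (norm_nonneg _).trans (h3 zs hzs ts hts)
  -- the statement S i
  set S : ℕ → Prop := fun i => ∃ G : (Fin n → ℂ) → ℂ → ℂ, ∀ z ∈ B, DifferentiableOn ℂ (G z) (ball 0 q0) ∧
    ∀ q ∈ ball (0 : ℂ) q0, F z q = q ^ i * G z q ∧ ‖G z q‖ ≤ C / q0 ^ i with hS
  have hS0 : S 0 := ⟨F, fun z hz => ⟨(hF z hz).1, fun q hq => ⟨by simp, by simpa using (hF z hz).2.1 q hq⟩⟩⟩
  have hstep : ∀ i, ∀ G : (Fin n → ℂ) → ℂ → ℂ, (∀ z ∈ B, DifferentiableOn ℂ (G z) (ball 0 q0) ∧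
      ∀ q ∈ ball (0 : ℂ) q0, F z q = q ^ i * G z q ∧ ‖G z q‖ ≤ C / q0 ^ i) →
      (∀ z ∈ B, G z 0 = 0) → S (i + 1) := by
    intro i G hG hG0
    refine ⟨fun z => dslope (G z) 0, fun z hz => ⟨?_, fun q hq => ⟨?_, ?_⟩⟩⟩
    · exact (Complex.differentiableOn_dslope (ball_mem_nhds _ hq0p)).2 (hG z hz).1
    · have e1 := sub_smul_dslope (G z) 0 q
      rw [hG0 z hz, sub_zero, sub_zero, smul_eq_mul] at e1
      rw [((hG z hz).2 q hq).1, ← e1]
      ring
    · have e1 := Complex.norm_dslope_le_div_of_mapsTo_ball (f := G z) (c := 0) (R₁ := q0)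
        (R₂ := C / q0 ^ i) (z := q) (hG z hz).1 (by
          intro q' hq'
          rw [hG0 z hz, mem_closedBall_zero_iff]
          exact ((hG z hz).2 q' hq').2) hq
      refine e1.trans (le_of_eq ?_)
      rw [pow_succ, div_div]
  have hnot : ∃ i, ¬ S i := by
    by_contra hall
    push Not at hall
    set qs : ℂ := Complex.exp (ts / N) with hqs
    have hqn : ‖qs‖ = Real.exp (ts.re / N) := by
      rw [hqs, Complex.norm_exp]
      congr 1
      rw [show (N : ℂ) = ((N : ℝ) : ℂ) by norm_cast, Complex.div_ofReal_re]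
    have hqlt : ‖qs‖ < q0 := by
      rw [hqn, hq0]
      exact Real.exp_lt_exp.2 (div_lt_div_of_pos_right hts hNr)
    have hqb : qs ∈ ball (0 : ℂ) q0 := mem_ball_zero_iff.2 hqlt
    have hle : ∀ i : ℕ, ‖Φ zs ts‖ ≤ C * (‖qs‖ / q0) ^ i := by
      intro i
      obtain ⟨G, hG⟩ := hall i
      have e1 := (hG zs hzs).2 qs hqb
      rw [← (hF zs hzs).2.2 ts hts, ← hqs, e1.1, norm_mul, norm_pow]
      calc ‖qs‖ ^ i * ‖G zs qs‖ ≤ ‖qs‖ ^ i * (C / q0 ^ i) := by
            exact mul_le_mul_of_nonneg_left e1.2 (by positivity)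
        _ = C * (‖qs‖ / q0) ^ i := by rw [div_pow]; ring
    have hlim : Tendsto (fun i : ℕ => C * (‖qs‖ / q0) ^ i) atTop (𝓝 (C * 0)) :=
      (tendsto_pow_atTop_nhds_zero_of_lt_one (by positivity) ((div_lt_one hq0p).2 hqlt)).const_mul C
    rw [mul_zero] at hlim
    have := ge_of_tendsto' hlim hle
    exact hne (norm_le_zero_iff.1 this)
  -- the order
  obtain ⟨k, hk1, hk2⟩ : ∃ k, S k ∧ ¬ S (k + 1) := by
    set i0 := Nat.find hnot with hi0
    have e1 : ¬ S i0 := Nat.find_spec hnot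
    have e2 : i0 ≠ 0 := by
      intro h
      rw [h] at e1
      exact e1 hS0
    refine ⟨i0 - 1, ?_, ?_⟩
    · by_contra h
      have := Nat.find_min' hnot h
      omega
    · have : i0 - 1 + 1 = i0 := by omega
      rwa [this]
  obtain ⟨G, hG⟩ := hk1
  obtain ⟨z2, hz2, hz2n⟩ : ∃ z ∈ B, G z 0 ≠ 0 := by
    by_contra h
    push Not at h
    exact hk2 (hstep k G hG h)
  set C1 : ℝ := 2 * (C / q0 ^ k) / q0 with hC1
  have hC10 : 0 ≤ C1 := by positivity
  have h0b : (0 : ℂ) ∈ ball (0 : ℂ) q0 := mem_ball_self hq0p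
  have hGl : ∀ z ∈ B, ∀ q ∈ ball (0 : ℂ) q0, ‖G z q - G z 0‖ ≤ C1 * ‖q‖ := by
    intro z hz q hq
    have e1 := Complex.dist_le_div_mul_dist_of_mapsTo_ball (f := G z) (c := 0) (R₁ := q0)
      (R₂ := 2 * (C / q0 ^ k)) (z := q) (hG z hz).1 (by
        intro q' hq'
        rw [mem_closedBall, dist_eq_norm]
        have a1 := ((hG z hz).2 q' hq').2
        have a2 := ((hG z hz).2 0 h0b).2
        have := norm_sub_le (G z q') (G z 0)
        linarith) hq
    rwa [dist_eq_norm, dist_zero_right] at e1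
  -- the sequence
  set qj : ℕ → ℝ := fun j => q0 / ((j : ℝ) + 2) with hqj
  have hqj0 : ∀ j, 0 < qj j := fun j => by positivity
  have hqjlt : ∀ j, qj j < q0 := fun j => by
    rw [hqj]
    simp only
    rw [div_lt_iff₀ (by positivity)]
    have : (0 : ℝ) ≤ j := Nat.cast_nonneg j
    nlinarith
  have hqjb : ∀ j, ((qj j : ℝ) : ℂ) ∈ ball (0 : ℂ) q0 := fun j => by
    rw [mem_ball_zero_iff, Complex.norm_real, Real.norm_eq_abs, abs_of_pos (hqj0 j)]
    exact hqjlt j
  have hqjl : Tendsto qj atTop (𝓝 0) := by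
    have : Tendsto (fun j : ℕ => (j : ℝ) + 2) atTop atTop :=
      tendsto_atTop_add_const_right _ _ tendsto_natCast_atTop_atTop
    exact this.const_div_atTop q0
  have hunif : TendstoUniformlyOn (fun (j : ℕ) z => G z (qj j)) (fun z => G z 0) atTop B := by
    rw [Metric.tendstoUniformlyOn_iff]
    intro ε hε
    have e1 : Tendsto (fun j => C1 * qj j) atTop (𝓝 (C1 * 0)) := hqjl.const_mul C1
    rw [mul_zero] at e1
    filter_upwards [e1.eventually (gt_mem_nhds hε)] with j hj z hz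
    rw [dist_comm, dist_eq_norm]
    refine (hGl z hz _ (hqjb j)).trans_lt ?_
    rw [Complex.norm_real, Real.norm_eq_abs, abs_of_pos (hqj0 j)]
    exact hj
  have hGd : ∀ j, DifferentiableOn ℂ (fun z => G z (qj j)) B := by
    intro j
    set t : ℂ := ((N * Real.log (qj j) : ℝ) : ℂ) with ht
    have htre : t.re < t0 := by
      rw [ht, Complex.ofReal_re]
      have := Real.log_lt_log (hqj0 j) (hqjlt j)
      rw [hq0, Real.log_exp, lt_div_iff₀ hNr] at this
      linarith
    have hexp : Complex.exp (t / N) = qj j := by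
      rw [ht]
      push_cast
      rw [mul_div_cancel_left₀ _ (by exact_mod_cast hN.ne')]
      rw [← Complex.ofReal_exp, Real.exp_log (hqj0 j)]
    have e1 : ∀ z ∈ B, G z (qj j) = ((qj j : ℂ) ^ k)⁻¹ * Φ z t := by
      intro z hz
      have a1 := (hF z hz).2.2 t htre
      rw [hexp, ((hG z hz).2 _ (hqjb j)).1] at a1
      rw [← a1, inv_mul_cancel_left₀]
      exact pow_ne_zero _ (by exact_mod_cast (hqj0 j).ne')
    exact ((h1 t htre).const_mul _).congr e1
  have hgc : ContinuousOn (fun z => G z 0) B :=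
    hunif.continuousOn (Frequently.of_forall fun j => (hGd j).continuousOn)
  -- an imaginary point
  obtain ⟨κ1, hκ1, hκ1n⟩ : ∃ κ1 : Fin n → ℝ, ik κ1 ∈ B ∧ G (ik κ1) 0 ≠ 0 := by
    by_contra hcon
    push Not at hcon
    set L : ℂ → Fin n → ℂ := fun w l => Complex.I * ((z2 l).im : ℂ) + w * (Complex.I * ((z2 l).re : ℂ)) with hL
    have hLd : Differentiable ℂ L := by
      rw [differentiable_pi]
      intro l
      exact (differentiable_id.mul_const _).const_add _
    set U : Set ℂ := L ⁻¹' B with hU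
    have hUo : IsOpen U := isOpen_ball.preimage hLd.continuous
    have hUc : Convex ℝ U := by
      intro x hx y hy s t hs ht hst
      have h1 := convex_ball (ik κ0) r hx hy hs ht hst
      show L (s • x + t • y) ∈ ball (ik κ0) r
      convert h1 using 1
      funext l
      have hst' : (s : ℂ) + (t : ℂ) = 1 := by exact_mod_cast hst
      simp only [hL, Pi.add_apply, Pi.smul_apply, Complex.real_smul]
      linear_combination (-(Complex.I * ((z2 l).im : ℂ))) * hst'
    have hLI : L (-Complex.I) = z2 := by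
      funext l
      simp only [hL]
      rw [neg_mul, ← mul_assoc, Complex.I_mul_I]
      conv_rhs => rw [← Complex.re_add_im (z2 l)]
      ring
    have hIU : -Complex.I ∈ U := by
      show L (-Complex.I) ∈ B
      rw [hLI]; exact hz2
    have hLr : ∀ x : ℝ, L x = ik (fun l => (z2 l).im + x * (z2 l).re) := by
      intro x
      funext l
      simp only [hL, ik]
      push_cast
      ring
    have h0U : (0 : ℂ) ∈ U := by
      show L 0 ∈ B
      have e1 := hLr 0
      rw [Complex.ofReal_zero] at e1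
      rw [e1]
      rw [hB, mem_ball, dist_pi_lt_iff (pos_of_mem_ball hz2)]
      intro l
      refine lt_of_le_of_lt ?_ ((dist_pi_lt_iff (pos_of_mem_ball hz2)).1 (mem_ball.1 hz2) l)
      rw [dist_eq_norm, dist_eq_norm]
      simp only [ik, zero_mul, add_zero]
      rw [← mul_sub, norm_mul, Complex.norm_I, one_mul, ← Complex.ofReal_sub, Complex.norm_real,
        Real.norm_eq_abs]
      have : (z2 l).im - κ0 l = (z2 l - Complex.I * (κ0 l : ℂ)).im := by simp
      rw [this]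
      exact Complex.abs_im_le_norm _
    have hhd : DifferentiableOn ℂ (fun w => G (L w) 0) U := by
      have e1 : TendstoUniformlyOn (fun (j : ℕ) w => G (L w) (qj j)) (fun w => G (L w) 0) atTop U :=
        hunif.comp L
      exact e1.tendstoLocallyUniformlyOn.differentiableOn
        (Eventually.of_forall fun j => (hGd j).comp hLd.differentiableOn fun w hw => hw) hUo
    have hzero : ∀ x : ℝ, (x : ℂ) ∈ U → G (L x) 0 = 0 := by
      intro x hx
      rw [hLr]
      apply hcon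
      rw [← hLr]
      exact hx
    have hana : AnalyticOnNhd ℂ (fun w => G (L w) 0) U := hhd.analyticOnNhd hUo
    have hfreq : ∃ᶠ w in 𝓝[≠] (0 : ℂ), G (L w) 0 = 0 := by
      have e1 : Tendsto (fun j : ℕ => (((1 / ((j : ℝ) + 1) : ℝ)) : ℂ)) atTop (𝓝[≠] 0) := by
        rw [tendsto_nhdsWithin_iff]
        constructor
        · have := tendsto_one_div_add_atTop_nhds_zero_nat (𝕜 := ℝ)
          have h : Tendsto (fun j : ℕ => (((1 / ((j : ℝ) + 1) : ℝ)) : ℂ)) atTop (𝓝 ((0 : ℝ) : ℂ)) :=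
            (Complex.continuous_ofReal.tendsto 0).comp this
          rwa [Complex.ofReal_zero] at h
        · refine Eventually.of_forall fun j => ?_
          simp only [Set.mem_compl_iff, Set.mem_singleton_iff]
          have : (0 : ℝ) < 1 / ((j : ℝ) + 1) := by positivity
          exact_mod_cast this.ne'
      refine e1.frequently (Eventually.frequently ?_)
      have e2 : ∀ᶠ w in 𝓝[≠] (0 : ℂ), w ∈ U := nhdsWithin_le_nhds (hUo.mem_nhds h0U)
      filter_upwards [e1.eventually e2] with j hj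
      exact hzero _ hj
    have hz := hana.eqOn_zero_of_preconnected_of_frequently_eq_zero hUc.isPreconnected h0U hfreq hIU
    simp only [Pi.zero_apply] at hz
    rw [hLI] at hz
    exact hz2n hz
  -- a neighbourhood
  set c2 : ℝ := ‖G (ik κ1) 0‖ / 2 with hc2
  have hc20 : 0 < c2 := by
    have := norm_pos_iff.2 hκ1n
    rw [hc2]; linarith
  obtain ⟨r1, hr1, hr1B⟩ : ∃ r1 > 0, ball (ik κ1) r1 ⊆ B ∩ {z | c2 < ‖G z 0‖} := by
    have e1 : ContinuousAt (fun z => ‖G z 0‖) (ik κ1) :=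
      (hgc.continuousAt (isOpen_ball.mem_nhds hκ1)).norm
    have e2 : ∀ᶠ z in 𝓝 (ik κ1), c2 < ‖G z 0‖ := e1.eventually (lt_mem_nhds (by rw [hc2]; linarith))
    have e3 : B ∩ {z | c2 < ‖G z 0‖} ∈ 𝓝 (ik κ1) := inter_mem (isOpen_ball.mem_nhds hκ1) e2
    obtain ⟨r1, h1, h2⟩ := Metric.mem_nhds_iff.1 e3
    exact ⟨r1, h1, h2⟩
  set t1 : ℝ := min t0 (N * Real.log (c2 / (2 * (C1 + 1)))) with ht1
  refine ⟨k, κ1, r1, t1, c2 / 2, hr1, by linarith, min_le_left _ _, fun z hz => (hr1B hz).1, ?_⟩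
  intro z hz t ht
  have hzB := (hr1B hz).1
  have hzc := (hr1B hz).2
  have ht0 : t < t0 := ht.trans_le (min_le_left _ _)
  have htl : t < N * Real.log (c2 / (2 * (C1 + 1))) := ht.trans_le (min_le_right _ _)
  set q : ℝ := Real.exp (t / N) with hq
  have hqp : 0 < q := Real.exp_pos _
  have hqq0 : q < q0 := Real.exp_lt_exp.2 (div_lt_div_of_pos_right ht0 hNr)
  have hqs : q < c2 / (2 * (C1 + 1)) := by
    have hp : 0 < c2 / (2 * (C1 + 1)) := by positivity
    rw [hq, ← Real.exp_log hp]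
    apply Real.exp_lt_exp.2
    rw [div_lt_iff₀ hNr]
    linarith
  have hqb : ((q : ℝ) : ℂ) ∈ ball (0 : ℂ) q0 := by
    rw [mem_ball_zero_iff, Complex.norm_real, Real.norm_eq_abs, abs_of_pos hqp]
    exact hqq0
  have hexp : Complex.exp ((t : ℂ) / N) = q := by
    rw [hq]; push_cast; rfl
  have e1 := (hF z hzB).2.2 t (by rw [Complex.ofReal_re]; exact ht0)
  rw [hexp, ((hG z hzB).2 _ hqb).1] at e1
  rw [← e1, norm_mul, norm_pow, Complex.norm_real, Real.norm_eq_abs, abs_of_pos hqp, mul_comm (c2 / 2)]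
  refine mul_le_mul_of_nonneg_left ?_ (by positivity)
  have e2 := hGl z hzB _ hqb
  rw [Complex.norm_real, Real.norm_eq_abs, abs_of_pos hqp] at e2
  have e3 : C1 * q ≤ c2 / 2 := by
    have h1 : q * (2 * (C1 + 1)) < c2 := (lt_div_iff₀ (by positivity)).1 hqs
    nlinarith
  have e4 : ‖G z 0‖ - ‖G z q‖ ≤ ‖G z q - G z 0‖ := by
    rw [norm_sub_rev]
    exact norm_sub_norm_le _ _
  have hzc' : c2 < ‖G z 0‖ := hzc
  linarith

end Pool.Agent.Helper57.RA
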