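import Pool.Agent.Helper57.RA.Def
import Pool.Agent.Helper57.RA.LB

/-!
Project RA (helper57): bounded roots near infinity in imaginary directions.
-/

set_option autoImplicit false

namespace Pool.Agent.Helper57.RA

open MvPolynomial Filter Topology Metric Pool.Agent.W996.EC Pool.Agent.Q72.EG

variable {n : ℕ}

/-- `s^e g(z/s)`, extended to `s = 0` -/
noncomputable def sc (e : ℕ) (g : MvPolynomial (Fin n) ℂ) (z : Fin n → ℂ) (s : ℂ) : ℂ :=
  ∑ i ∈ Finset.range (e + 1), s ^ (e - i) * eval z (homogeneousComponent i g)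

theorem sc_zero (e : ℕ) (g : MvPolynomial (Fin n) ℂ) (z : Fin n → ℂ) :
    sc e g z 0 = eval z (homogeneousComponent e g) := by
  unfold sc
  rw [Finset.sum_range_succ, Finset.sum_eq_zero]
  · simp
  · intro i hi
    rw [Finset.mem_range] at hi
    rw [zero_pow (by omega), zero_mul]

theorem sc_eq {e : ℕ} {g : MvPolynomial (Fin n) ℂ} (hg : g.totalDegree ≤ e) (z : Fin n → ℂ) {s : ℂ}
    (hs : s ≠ 0) : sc e g z s = s ^ e * eval (fun l => s⁻¹ * z l) g := by
  have hP : g = ∑ i ∈ Finset.range (e + 1), homogeneousComponent i g := by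
    conv_lhs => rw [← sum_homogeneousComponent g]
    refine Finset.sum_subset (Finset.range_mono (by omega)) ?_
    intro i _ hi
    apply homogeneousComponent_eq_zero
    rw [Finset.mem_range] at hi
    omega
  conv_rhs => rw [hP]
  unfold sc
  rw [map_sum, Finset.mul_sum]
  refine Finset.sum_congr rfl fun i hi => ?_
  rw [Finset.mem_range] at hi
  rw [Pool.Agent.W721.EC.hom_smul (homogeneousComponent_isHomogeneous i g) s⁻¹ z, ← mul_assoc]
  congr 1
  have : s ^ e = s ^ (e - i) * s ^ i := by rw [← pow_add]; congr 1; omega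
  rw [this, inv_pow, mul_assoc, mul_inv_cancel₀ (pow_ne_zero _ hs), mul_one]

theorem sc_cont (e : ℕ) (g : MvPolynomial (Fin n) ℂ) :
    Continuous (fun p : (Fin n → ℂ) × ℂ => sc e g p.1 p.2) := by
  unfold sc
  refine continuous_finsetSum _ fun i _ => ?_
  have h1 : Continuous (fun p : (Fin n → ℂ) × ℂ => eval p.1 (homogeneousComponent i g)) :=
    (MvPolynomial.continuous_eval _).comp continuous_fst
  exact (continuous_snd.pow _).mul h1

/-- a nonzero polynomial does not vanish at `z / s` for `z` near a suitable point and small `s` -/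
theorem top_ne {g : MvPolynomial (Fin n) ℂ} {z0 : Fin n → ℂ}
    (h : eval z0 (homogeneousComponent g.totalDegree g) ≠ 0) :
    ∀ᶠ p : (Fin n → ℂ) × ℂ in 𝓝 (z0, 0), p.2 ≠ 0 → eval (fun l => p.2⁻¹ * p.1 l) g ≠ 0 := by
  have h1 : ∀ᶠ p : (Fin n → ℂ) × ℂ in 𝓝 (z0, 0), sc g.totalDegree g p.1 p.2 ≠ 0 := by
    refine ((sc_cont g.totalDegree g).tendsto (z0, 0)).eventually_ne ?_
    rw [sc_zero]; exact h
  filter_upwards [h1] with p hp hs h0
  apply hp
  rw [sc_eq le_rfl _ hs, h0, mul_zero]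

theorem top_ne_zero {g : MvPolynomial (Fin n) ℂ} (hg : g ≠ 0) :
    homogeneousComponent g.totalDegree g ≠ 0 := Pool.Agent.Q98.EG.homog_ne_zero hg

/-- simple roots -/
theorem exists_simple {P : MvPolynomial (Fin n) ℂ} (hP : Irreducible P) {m v : Fin n → ℤ}
    (hinv : ∃ (x : Fin n → ℂ) (t : ℂ), eval (fun l => x l + t * (v l : ℂ)) P ≠ eval x P) :
    ∃ ρ : MvPolynomial (Fin n) ℂ, ρ ≠ 0 ∧ ∀ u : Fin n → ℂ, eval u ρ ≠ 0 → ∀ w : ℂ,
      eval (pt m v u w) P = 0 → deriv (fun w => eval (pt m v u w) P) w ≠ 0 := by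
  set a : Fin n → ℝ := fun l => (v l : ℝ) with ha
  set p := Pool.Agent.Q252.EG.hat a P with hp
  have hinv' : ∃ (x : Fin n → ℂ) (t : ℂ), eval (fun l => x l + t * (a l : ℂ)) P ≠ eval x P := by
    obtain ⟨x, t, h⟩ := hinv
    exact ⟨x, t, by simpa [ha] using h⟩
  have hdeg : p.natDegree ≠ 0 := Pool.Agent.Q252.EG.hat_deg a hinv'
  have hprime : Prime p := Pool.Agent.Q252.EG.hat_prime a hP
  have hnd : ¬ p ∣ Polynomial.derivative p := by
    intro h
    have h0 : Polynomial.derivative p ≠ 0 := by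
      intro h0
      exact hdeg (Polynomial.derivative_eq_zero.1 h0)
    have h1 := Polynomial.natDegree_le_of_dvd h h0
    have h2 := Polynomial.natDegree_derivative_lt hdeg
    omega
  obtain ⟨ρ, α, β, hρ, hrel⟩ := Pool.Agent.Q252.EG.bezout hprime.irreducible hdeg hnd
  refine ⟨ρ, hρ, fun u hu w hw hd => hu ?_⟩
  have e1 : ∀ w : ℂ, eval (pt m v u w) P = (p.map (eval u)).eval (w - mu m u) := by
    intro w
    rw [hp, Pool.Agent.Q252.EG.eval_hat]
    congr 1
    apply congrArg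
    funext l
    simp only [pt, ha]
    push_cast
    ring
  have e2 : deriv (fun w => eval (pt m v u w) P) w =
      (Polynomial.derivative (p.map (eval u))).eval (w - mu m u) := by
    have h1 : (fun w => eval (pt m v u w) P) = fun w => (p.map (eval u)).eval (w - mu m u) := funext e1
    rw [h1]
    have h2 : HasDerivAt (fun w : ℂ => (p.map (eval u)).eval (w - mu m u))
        ((Polynomial.derivative (p.map (eval u))).eval (w - mu m u) * 1) w :=
      HasDerivAt.comp (h₂ := fun y => (p.map (eval u)).eval y) (h := fun w => w - mu m u) w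
        ((p.map (eval u)).hasDerivAt (w - mu m u)) ((hasDerivAt_id w).sub_const _)
    rw [h2.deriv, mul_one]
  have e3 := congrArg (fun q => (Polynomial.map (eval u) q).eval (w - mu m u)) hrel
  simp only [Polynomial.map_C, Polynomial.eval_C, Polynomial.map_add, Polynomial.map_mul,
    Polynomial.eval_add, Polynomial.eval_mul] at e3
  rw [← Polynomial.derivative_map, ← e2, ← e1, hw, hd] at e3
  rw [e3]; ring

/-- **bounded roots** -/
theorem bounded_root {P : MvPolynomial (Fin n) ℂ} (hP : Irreducible P) {m v : Fin n → ℤ} {e μ : ℕ}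
    (hdeg : ∀ j, ((qq m v P).coeff j).totalDegree ≤ e) (hμ : 1 ≤ μ)
    (hne : homogeneousComponent e ((qq m v P).coeff μ) ≠ 0) :
    ∃ (κ0 : Fin n → ℝ) (r t0 R : ℝ) (N : ℕ) (A : (Fin n → ℂ) × ℂ → ℂ), 0 < r ∧ 0 < N ∧
      DifferentiableOn ℂ A (ball (ik κ0) r ×ˢ {t : ℂ | t.re < t0}) ∧
      ∀ z ∈ ball (ik κ0) r, ∀ t : ℂ, t.re < t0 →
        eval (pt m v (fun l => Complex.exp (-t) * z l) (A (z, t))) P = 0 ∧ ‖A (z, t)‖ ≤ R ∧
        A (z, t + 2 * Real.pi * Complex.I * N) = A (z, t) := by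
  classical
  set Q := qq m v P with hQ
  set δ := Q.natDegree with hδ
  have hcμ : Q.coeff μ ≠ 0 := by
    intro h
    rw [h, map_zero] at hne
    exact hne rfl
  have hμδ : μ ≤ δ := Polynomial.le_natDegree_of_ne_zero hcμ
  have hQ0 : Q ≠ 0 := by
    intro h
    rw [h, Polynomial.coeff_zero] at hcμ
    exact hcμ rfl
  have hQdeg : Q.natDegree ≠ 0 := by rw [← hδ]; omega
  have hinv : ∃ (x : Fin n → ℂ) (t : ℂ), eval (fun l => x l + t * (v l : ℂ)) P ≠ eval x P := by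
    by_contra h
    push Not at h
    apply hcμ
    apply MvPolynomial.funext
    intro u
    have e1 : Q.map (eval u) = Polynomial.C (eval u P) := by
      apply Polynomial.funext
      intro w
      rw [hQ, eval_qq, Polynomial.eval_C, ← h u (w - mu m u)]
      congr 1
      apply congrArg
      funext l
      simp only [pt]; ring
    have e2 := congrArg (fun p => Polynomial.coeff p μ) e1
    simp only [Polynomial.coeff_map] at e2
    rw [e2, Polynomial.coeff_C_of_ne_zero (by omega), map_zero]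
  obtain ⟨ρ, hρ, hsimp⟩ := exists_simple (m := m) hP hinv
  set ρ2 := Q.leadingCoeff with hρ2
  have hρ20 : ρ2 ≠ 0 := Polynomial.leadingCoeff_ne_zero.2 hQ0
  -- the direction
  obtain ⟨κ0, -, hκ0⟩ := Pool.Agent.Q251.EG.Reg.perturb
    (mul_ne_zero (mul_ne_zero (top_ne_zero hρ) (top_ne_zero hρ20)) hne) (fun _ : Fin n => (0 : ℝ))
    zero_lt_one
  rw [map_mul, map_mul] at hκ0
  have hκ1 := left_ne_zero_of_mul (left_ne_zero_of_mul hκ0)
  have hκ2 := right_ne_zero_of_mul (left_ne_zero_of_mul hκ0)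
  have hκ3 := right_ne_zero_of_mul hκ0
  set z0 : Fin n → ℂ := ik κ0 with hz0
  have hz0' : (fun i => Complex.I * (κ0 i : ℂ)) = z0 := rfl
  rw [hz0'] at hκ1 hκ2 hκ3
  -- the function E
  set E : (Fin n → ℂ) → ℂ → ℂ → ℂ := fun z s w =>
    ∑ j ∈ Finset.range (δ + 1), sc e (Q.coeff j) z s * w ^ j with hE
  have hQsum : ∀ (u : Fin n → ℂ) (w : ℂ), eval (pt m v u w) P =
      ∑ j ∈ Finset.range (δ + 1), eval u (Q.coeff j) * w ^ j := by
    intro u w
    rw [← eval_qq, Polynomial.eval_map, Polynomial.eval₂_eq_sum_range]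
  have hEs : ∀ (z : Fin n → ℂ) (s w : ℂ), s ≠ 0 →
      E z s w = s ^ e * eval (pt m v (fun l => s⁻¹ * z l) w) P := by
    intro z s w hs
    simp only [hE]
    rw [hQsum, Finset.mul_sum]
    refine Finset.sum_congr rfl fun j _ => ?_
    rw [sc_eq (hdeg j) z hs, mul_assoc]
  have hEc : Continuous (fun q : ((Fin n → ℂ) × ℂ) × ℂ => E q.1.1 q.1.2 q.2) := by
    simp only [hE]
    refine continuous_finsetSum _ fun j _ => ?_
    exact ((sc_cont e (Q.coeff j)).comp continuous_fst).mul (continuous_snd.pow j)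
  have hEd : ∀ z s, Differentiable ℂ (E z s) := by
    intro z s
    simp only [hE]
    refine Differentiable.fun_sum fun j _ => ?_
    exact (differentiable_id.pow j).const_mul _
  -- the polynomial at infinity
  set f : Polynomial ℂ := ∑ j ∈ Finset.range (δ + 1),
    Polynomial.monomial j (eval z0 (homogeneousComponent e (Q.coeff j))) with hf
  have hfE : ∀ w, f.eval w = E z0 0 w := by
    intro w
    simp only [hf, hE]
    rw [Polynomial.eval_finsetSum]
    refine Finset.sum_congr rfl fun j _ => ?_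
    rw [Polynomial.eval_monomial, sc_zero]
  have hfμ : f.coeff μ ≠ 0 := by
    rw [hf, Polynomial.finsetSum_coeff]
    simp only [Polynomial.coeff_monomial]
    rw [Finset.sum_ite_eq' (Finset.range (δ + 1)) μ, if_pos (Finset.mem_range.2 (by omega))]
    exact hκ3
  have hf0 : f ≠ 0 := by
    intro h
    rw [h, Polynomial.coeff_zero] at hfμ
    exact hfμ rfl
  obtain ⟨w0, hw0⟩ : ∃ w0, f.eval w0 = 0 := by
    refine IsAlgClosed.exists_root f fun h => ?_
    have h1 := Polynomial.natDegree_eq_zero_iff_degree_le_zero.2 h.le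
    have h2 := Polynomial.le_natDegree_of_ne_zero hfμ
    omega
  have hroots : ∀ w, f.eval w = 0 → w ∈ f.roots.toFinset := fun w hw => by
    rw [Multiset.mem_toFinset, Polynomial.mem_roots hf0]
    exact hw
  obtain ⟨R, hR, hRf⟩ : ∃ R, ‖w0‖ < R ∧ ∀ w : ℂ, ‖w‖ = R → f.eval w ≠ 0 := by
    obtain ⟨R, h1, h2⟩ := (Set.Ioo_infinite (show ‖w0‖ < ‖w0‖ + 1 by linarith)).exists_notMem_finset
      (f.roots.toFinset.image norm)
    refine ⟨R, h1.1, fun w hw h0 => h2 ?_⟩
    rw [Finset.mem_image]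
    exact ⟨w, hroots w h0, hw⟩
  obtain ⟨rw, hrw, hrwR, hrwf⟩ : ∃ rw, 0 < rw ∧ rw < R - ‖w0‖ ∧ ∀ w : ℂ, ‖w - w0‖ = rw → f.eval w ≠ 0 := by
    obtain ⟨x, h1, h2⟩ := (Set.Ioo_infinite (show 0 < R - ‖w0‖ by linarith)).exists_notMem_finset
      (f.roots.toFinset.image fun w => ‖w - w0‖)
    refine ⟨x, h1.1, h1.2, fun w hw h0 => h2 ?_⟩
    rw [Finset.mem_image]
    exact ⟨w, hroots w h0, hw⟩
  have hR0 : 0 < R := (norm_nonneg _).trans_lt hR
  -- minimum on the small circle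
  obtain ⟨m0, hm0, hm0f⟩ : ∃ m0 : ℝ, 0 < m0 ∧ ∀ w : ℂ, ‖w - w0‖ = rw → m0 ≤ ‖f.eval w‖ := by
    have hK : IsCompact (sphere w0 rw) := isCompact_sphere _ _
    have hKn : (sphere w0 rw).Nonempty := NormedSpace.sphere_nonempty.2 hrw.le
    obtain ⟨x, hx, hmin⟩ := hK.exists_isMinOn hKn
      (f := fun w => ‖f.eval w‖) f.continuous.norm.continuousOn
    refine ⟨‖f.eval x‖, norm_pos_iff.2 (hrwf x ?_), fun w hw => hmin ?_⟩
    · rw [← dist_eq_norm]; exact hx
    · rw [mem_sphere, dist_eq_norm]; exact hw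
  -- everything near `(z0, 0)`
  have hev1 : ∀ᶠ p : (Fin n → ℂ) × ℂ in 𝓝 (z0, 0), ∀ w ∈ sphere (0 : ℂ) R, E p.1 p.2 w ≠ 0 := by
    refine (isCompact_sphere (0 : ℂ) R).eventually_forall_of_forall_eventually fun w hw => ?_
    refine (hEc.tendsto ((z0, 0), w)).eventually_ne ?_
    show E z0 0 w ≠ 0
    rw [← hfE]
    exact hRf w (by rwa [mem_sphere, dist_zero_right] at hw)
  have hev2 : ∀ᶠ p : (Fin n → ℂ) × ℂ in 𝓝 (z0, 0), ∀ w ∈ sphere w0 rw, m0 / 2 < ‖E p.1 p.2 w‖ := by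
    refine (isCompact_sphere w0 rw).eventually_forall_of_forall_eventually fun w hw => ?_
    refine (hEc.norm.tendsto ((z0, 0), w)).eventually (lt_mem_nhds ?_)
    show m0 / 2 < ‖E z0 0 w‖
    rw [← hfE]
    have := hm0f w (by rwa [mem_sphere, dist_eq_norm] at hw)
    linarith
  have hev3 : ∀ᶠ p : (Fin n → ℂ) × ℂ in 𝓝 (z0, 0), ‖E p.1 p.2 w0‖ < m0 / 2 := by
    have h1 : Continuous (fun p : (Fin n → ℂ) × ℂ => ‖E p.1 p.2 w0‖) :=
      (hEc.comp (continuous_id.prodMk continuous_const)).norm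
    refine (h1.tendsto (z0, 0)).eventually (gt_mem_nhds ?_)
    show ‖E z0 0 w0‖ < m0 / 2
    rw [← hfE, hw0, norm_zero]
    linarith
  obtain ⟨ε, hε, hball⟩ := Metric.eventually_nhds_iff_ball.1
    (hev1.and (hev2.and (hev3.and ((top_ne hκ1).and (top_ne hκ2)))))
  rw [← ball_prod_same] at hball
  set t0 : ℝ := Real.log ε with ht0
  have hsb : ∀ t : ℂ, t.re < t0 → Complex.exp t ∈ ball (0 : ℂ) ε := by
    intro t ht
    rw [mem_ball_zero_iff, Complex.norm_exp]
    rwa [ht0, Real.lt_log_iff_exp_lt hε] at ht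
  set H : Set ℂ := {t | t.re < t0} with hH
  set U : Set ((Fin n → ℂ) × ℂ) := ball z0 ε ×ˢ H with hU
  have hHo : IsOpen H := isOpen_lt Complex.continuous_re continuous_const
  have hHc : Convex ℝ H := convex_halfSpace_re_lt t0
  have hUo : IsOpen U := isOpen_ball.prod hHo
  have hUc : Convex ℝ U := (convex_ball _ _).prod hHc
  set F : (Fin n → ℂ) × ℂ → ℂ → ℂ := fun p w =>
    eval (pt m v (fun l => Complex.exp (-p.2) * p.1 l) w) P with hF
  have hFE : ∀ (p : (Fin n → ℂ) × ℂ) (w : ℂ), E p.1 (Complex.exp p.2) w =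
      Complex.exp p.2 ^ e * F p w := by
    intro p w
    rw [hEs _ _ _ (Complex.exp_ne_zero _), ← Complex.exp_neg]
  have hFE0 : ∀ (p : (Fin n → ℂ) × ℂ) (w : ℂ), F p w = 0 ↔ E p.1 (Complex.exp p.2) w = 0 := by
    intro p w
    rw [hFE, mul_eq_zero, or_iff_right (pow_ne_zero _ (Complex.exp_ne_zero _))]
  have hmem : ∀ p ∈ U, (p.1, Complex.exp p.2) ∈ ball z0 ε ×ˢ ball (0 : ℂ) ε := fun p hp =>
    ⟨hp.1, hsb p.2 hp.2⟩
  have hρne : ∀ p ∈ U, eval (fun l => Complex.exp (-p.2) * p.1 l) ρ ≠ 0 := by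
    intro p hp
    have := (hball _ (hmem p hp)).2.2.2.1 (Complex.exp_ne_zero _)
    rwa [← Complex.exp_neg] at this
  have hρ2ne : ∀ p ∈ U, eval (fun l => Complex.exp (-p.2) * p.1 l) ρ2 ≠ 0 := by
    intro p hp
    have := (hball _ (hmem p hp)).2.2.2.2 (Complex.exp_ne_zero _)
    rwa [← Complex.exp_neg] at this
  have huc : Continuous (fun p : (Fin n → ℂ) × ℂ => (fun l => Complex.exp (-p.2) * p.1 l : Fin n → ℂ)) := by
    fun_prop
  have hFc : ContDiffOn ℂ 1 (fun p : ((Fin n → ℂ) × ℂ) × ℂ => F p.1 p.2) (U ×ˢ Set.univ) := by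
    refine ContDiff.contDiffOn ?_
    refine Pool.Agent.Q251.EG.Reg.contDiff_ev P
      (fun p : ((Fin n → ℂ) × ℂ) × ℂ => pt m v (fun l => Complex.exp (-p.1.2) * p.1.1 l) p.2) ?_
    intro i
    simp only [pt, mu]
    fun_prop
  have hprop : ∀ K : Set ((Fin n → ℂ) × ℂ), K ⊆ U → IsCompact K → ∀ M : ℝ, ∃ B : ℝ, ∀ s ∈ K, ∀ z,
      ‖F s z‖ ≤ M → ‖z‖ ≤ B := by
    intro K hK hKc M
    obtain ⟨B, hB⟩ := Pool.Agent.Q251.EG.Reg.proper Q hQdeg
      ((fun p : (Fin n → ℂ) × ℂ => (fun l => Complex.exp (-p.2) * p.1 l : Fin n → ℂ)) '' K)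
      (hKc.image huc) (by
        rintro _ ⟨p, hp, rfl⟩
        exact hρ2ne p (hK hp)) M
    refine ⟨B, fun s hs z hz => hB _ ⟨s, hs, rfl⟩ z ?_⟩
    rw [hQ, eval_qq]
    exact hz
  have hsimple : ∀ s ∈ U, ∀ z, F s z = 0 → deriv (F s) z ≠ 0 := fun s hs z hz =>
    hsimp _ (hρne s hs) z hz
  -- the initial root
  set p0 : (Fin n → ℂ) × ℂ := (z0, ((t0 - 1 : ℝ) : ℂ)) with hp0
  have hp0U : p0 ∈ U := by
    refine ⟨mem_ball_self hε, ?_⟩
    show (((t0 - 1 : ℝ) : ℂ)).re < t0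
    rw [Complex.ofReal_re]; linarith
  obtain ⟨ws, hws, hws0⟩ : ∃ ws, ‖ws‖ < R ∧ F p0 ws = 0 := by
    obtain ⟨-, a2, a3, -, -⟩ := hball _ (hmem p0 hp0U)
    obtain ⟨ω, b1, b2⟩ := Pool.Agent.Q251.EG.Reg.zero_in_disc (E p0.1 (Complex.exp p0.2))
      (hEd _ _) w0 rw (m0 / 2) hrw a3 (fun ω hω => (a2 ω (by rw [mem_sphere, dist_eq_norm]; exact hω)).le)
    refine ⟨ω, ?_, (hFE0 _ _).2 b2⟩
    have : ‖ω‖ ≤ ‖ω - w0‖ + ‖w0‖ := by
      have := norm_add_le (ω - w0) w0
      rwa [sub_add_cancel] at this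
    linarith
  obtain ⟨Z, hZd, hZ0, hZ, huniq⟩ := Pool.Agent.H713R3.ZA.ROOT.main U F hUo hUc hFc hprop hsimple p0
    hp0U ws hws0
  have hZb : ∀ p ∈ U, ‖Z p‖ < R := by
    intro p hp
    by_contra hcon
    push Not at hcon
    have h1 := hUc.isPreconnected.intermediate_value hp0U hp (hZd.continuousOn.norm)
    obtain ⟨p', hp', hp'R⟩ := h1 ⟨by rw [hZ0]; exact hws.le, hcon⟩
    have h2 := (hball _ (hmem p' hp')).1 (Z p') (by rw [mem_sphere, dist_zero_right]; exact hp'R)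
    exact h2 ((hFE0 _ _).1 (hZ p' hp'))
  -- the period
  have hexpk : ∀ (t : ℂ) (k : ℕ), Complex.exp (-(t + 2 * Real.pi * Complex.I * k)) = Complex.exp (-t) := by
    intro t k
    have : -(t + 2 * Real.pi * Complex.I * k) = -t + ((-(k : ℤ) : ℤ) : ℂ) * (2 * Real.pi * Complex.I) := by
      push_cast; ring
    rw [this, Complex.exp_add, Complex.exp_int_mul_two_pi_mul_I, mul_one]
  have hshU : ∀ (k : ℕ) (p : (Fin n → ℂ) × ℂ), p ∈ U → (p.1, p.2 + 2 * Real.pi * Complex.I * k) ∈ U := by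
    intro k p hp
    refine ⟨hp.1, ?_⟩
    show (p.2 + 2 * Real.pi * Complex.I * k).re < t0
    have h1 : (p.2 + 2 * Real.pi * Complex.I * k).re = p.2.re := by simp
    rw [h1]
    exact hp.2
  have hFsh : ∀ (k : ℕ) (p : (Fin n → ℂ) × ℂ) (w : ℂ), F (p.1, p.2 + 2 * Real.pi * Complex.I * k) w = F p w := by
    intro k p w
    simp only [hF]
    rw [hexpk]
  set u0 : Fin n → ℂ := fun l => Complex.exp (-p0.2) * p0.1 l with hu0
  have hQu : Q.map (eval u0) ≠ 0 := by
    intro h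
    apply hρ2ne p0 hp0U
    have h2 : (Q.map (eval u0)).coeff Q.natDegree = eval u0 ρ2 := Polynomial.coeff_map _ _
    rw [h, Polynomial.coeff_zero] at h2
    exact h2.symm
  have hin : ∀ k : ℕ, Z (p0.1, p0.2 + 2 * Real.pi * Complex.I * k) ∈ (Q.map (eval u0)).roots.toFinset := by
    intro k
    rw [Multiset.mem_toFinset, Polynomial.mem_roots hQu, Polynomial.IsRoot.def, hQ, eval_qq]
    have h1 := hZ _ (hshU k p0 hp0U)
    rw [hFsh] at h1
    exact h1
  obtain ⟨k1, k2, hk12, hkk⟩ : ∃ k1 k2 : ℕ, k1 < k2 ∧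
      Z (p0.1, p0.2 + 2 * Real.pi * Complex.I * k1) = Z (p0.1, p0.2 + 2 * Real.pi * Complex.I * k2) := by
    obtain ⟨a, b, hab, heq⟩ := Finite.exists_ne_map_eq_of_infinite
      (fun k : ℕ => (⟨_, hin k⟩ : {w // w ∈ (Q.map (eval u0)).roots.toFinset}))
    have heq' := congrArg Subtype.val heq
    simp only at heq'
    rcases lt_or_gt_of_ne hab with h | h
    · exact ⟨a, b, h, heq'⟩
    · exact ⟨b, a, h, heq'.symm⟩
  obtain ⟨N, hN⟩ : ∃ N, k2 = k1 + N := ⟨k2 - k1, by omega⟩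
  have hN0 : 0 < N := by omega
  have hper := huniq (fun p => Z (p.1, p.2 + 2 * Real.pi * Complex.I * N)) (by
      refine hZd.continuousOn.comp (Continuous.continuousOn ?_) fun p hp => hshU N p hp
      fun_prop)
    ⟨(p0.1, p0.2 + 2 * Real.pi * Complex.I * k1), hshU k1 p0 hp0U, by
      simp only
      rw [hkk, hN]
      congr 2
      push_cast
      ring⟩
    (fun p hp => by
      have h1 := hZ _ (hshU N p hp)
      rwa [hFsh] at h1)
  refine ⟨κ0, ε, t0, R, N, Z, hε, hN0, hZd, fun z hz t ht => ⟨?_, ?_, ?_⟩⟩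
  · exact hZ (z, t) ⟨hz, ht⟩
  · exact (hZb (z, t) ⟨hz, ht⟩).le
  · exact hper (z, t) ⟨hz, ht⟩

end Pool.Agent.Helper57.RA
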