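import Pool.Agent.Helper57.RA.Wt
import Pool.Agent.Helper57.RA.Geo

/-!
Project RA (helper57): limits at infinity of the hypersurface force a degree bound.
-/

set_option autoImplicit false

namespace Pool.Agent.Helper57.RA

open MvPolynomial Filter Topology Metric Pool.Agent.W996.EC Pool.Agent.Q72.EG

variable {n : ℕ}

theorem mu_ik (m : Fin n → ℤ) (κ : Fin n → ℝ) (h : ∑ l, (m l : ℝ) * κ l = 0) : mu m (ik κ) = 0 := by
  have h1 : mu m (ik κ) = Complex.I * ((∑ l, (m l : ℝ) * κ l : ℝ) : ℂ) := by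
    simp only [mu, ik]
    push_cast
    rw [Finset.mul_sum]
    exact Finset.sum_congr rfl fun l _ => by ring
  rw [h1, h]; simp

theorem eval_aeval_linm (m : Fin n → ℤ) (f : Polynomial ℂ) (u : Fin n → ℂ) :
    eval u (Polynomial.aeval (linm m) f) = f.eval (mu m u) := by
  rw [Polynomial.aeval_def, Polynomial.hom_eval₂, eval_linm]
  have : (eval u).comp (algebraMap ℂ (MvPolynomial (Fin n) ℂ)) = RingHom.id ℂ := by
    ext c
    simp [MvPolynomial.algebraMap_eq]
  rw [this, Polynomial.eval₂_id]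

theorem aeval_linm_ne {m v : Fin n → ℤ} (hmv : ∑ l, m l * v l = 1) {f : Polynomial ℂ} (hf : f ≠ 0) :
    Polynomial.aeval (linm m) f ≠ 0 := by
  intro h
  apply hf
  apply Polynomial.funext
  intro w
  have h1 := eval_aeval_linm m f (pt m v 0 w)
  rw [h, mu_pt m v hmv] at h1
  simpa using h1.symm

/-- the inverses `1/(k+1)` -/
noncomputable def sq (k : ℕ) : ℂ := ((k : ℂ) + 1)⁻¹

theorem sq_ne (k : ℕ) : sq k ≠ 0 := by
  unfold sq
  refine inv_ne_zero ?_
  have : ((k : ℂ) + 1) = ((k + 1 : ℕ) : ℂ) := by push_cast; rfl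
  rw [this]; exact_mod_cast Nat.succ_ne_zero k

theorem sq_lim : Tendsto sq atTop (𝓝 0) := by
  have h1 : Tendsto (fun k : ℕ => (((k : ℝ) + 1))⁻¹) atTop (𝓝 0) :=
    tendsto_inv_atTop_zero.comp (tendsto_atTop_add_const_right _ _ tendsto_natCast_atTop_atTop)
  have h2 := (Complex.continuous_ofReal.tendsto 0).comp h1
  rw [Complex.ofReal_zero] at h2
  refine h2.congr fun k => ?_
  simp [sq]

theorem sc_lim1 (x z : Fin n → ℂ) {r p : ℕ} (hr : r ≠ 0)
    (hp : p ≠ 0) : Tendsto (fun k : ℕ => ((fun l => sq k ^ p * x l + z l : Fin n → ℂ),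
      sq k ^ r)) atTop (𝓝 (z, 0)) := by
  refine Tendsto.prodMk_nhds ?_ ?_
  · refine tendsto_pi_nhds.2 fun l => ?_
    have h2 : Tendsto (fun k : ℕ => sq k ^ p * x l + z l) atTop
        (𝓝 (0 ^ p * x l + z l)) := ((sq_lim.pow _).mul_const _).add_const _
    rwa [zero_pow hp, zero_mul, zero_add] at h2
  · have h2 := sq_lim.pow r
    rwa [zero_pow hr] at h2

theorem sc_lim (c : MvPolynomial (Fin n) ℂ) (e : ℕ) (x z : Fin n → ℂ) {r p : ℕ} (hr : r ≠ 0)
    (hp : p ≠ 0) : Tendsto (fun k : ℕ => sc e c (fun l => sq k ^ p * x l + z l) (sq k ^ r)) atTop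
      (𝓝 (eval z (homogeneousComponent e c))) := by
  have h1 := sc_lim1 x z hr hp
  have h5 : Tendsto (fun p : (Fin n → ℂ) × ℂ => sc e c p.1 p.2) (𝓝 (z, 0)) (𝓝 (sc e c z 0)) :=
    (sc_cont e c).continuousAt.tendsto
  rw [sc_zero] at h5
  have h6 := h5.comp h1
  simp only [Function.comp_def] at h6
  exact h6

theorem term_eq {c : MvPolynomial (Fin n) ℂ} {s : ℂ} (hs : s ≠ 0) {p r N j : ℕ} (hpr : p < r)
    (h3 : r * c.totalDegree + p * j ≤ N) (x κ : Fin n → ℂ) (M : ℂ) :
    s ^ N * (eval (fun l => (s⁻¹) ^ p * x l + (s⁻¹) ^ r * κ l) c * ((s⁻¹) ^ p * M) ^ j) =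
    s ^ (N - (r * c.totalDegree + p * j)) *
      sc c.totalDegree c (fun l => s ^ (r - p) * x l + κ l) (s ^ r) * M ^ j := by
  rw [sc_eq le_rfl _ (pow_ne_zero _ hs)]
  have e3 : (fun l => (s ^ r)⁻¹ * (s ^ (r - p) * x l + κ l)) =
      fun l => (s⁻¹) ^ p * x l + (s⁻¹) ^ r * κ l := by
    funext l
    have : s ^ r = s ^ (r - p) * s ^ p := by rw [← pow_add]; congr 1; omega
    rw [mul_add, inv_pow, inv_pow]
    congr 1
    rw [this]
    field_simp
  rw [e3]
  have e4 : s ^ N = s ^ (N - (r * c.totalDegree + p * j)) * (s ^ r) ^ c.totalDegree * s ^ (p * j) := by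
    rw [← pow_mul, mul_assoc, ← pow_add, ← pow_add]; congr 1; omega
  have e5 : s ^ (p * j) * (s⁻¹ ^ p * M) ^ j = M ^ j := by
    rw [mul_pow, ← pow_mul, inv_pow, ← mul_assoc, mul_inv_cancel₀ (pow_ne_zero _ hs), one_mul]
  rw [e4]
  calc s ^ (N - (r * c.totalDegree + p * j)) * (s ^ r) ^ c.totalDegree * s ^ (p * j) *
        (eval (fun l => s⁻¹ ^ p * x l + s⁻¹ ^ r * κ l) c * (s⁻¹ ^ p * M) ^ j) =
      s ^ (N - (r * c.totalDegree + p * j)) * (s ^ r) ^ c.totalDegree *
        eval (fun l => s⁻¹ ^ p * x l + s⁻¹ ^ r * κ l) c * (s ^ (p * j) * (s⁻¹ ^ p * M) ^ j) := by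
        ring
    _ = _ := by rw [e5]; ring

/-- the limit polynomials -/
theorem limInf_newton {P : MvPolynomial (Fin n) ℂ} {m v : Fin n → ℤ} (hmv : ∑ l, m l * v l = 1)
    {p r N : ℕ} (hp : 0 < p) (hpr : p < r)
    (hN : ∀ j, (qq m v P).coeff j ≠ 0 → r * ((qq m v P).coeff j).totalDegree + p * j ≤ N)
    (κ : Fin n → ℝ) (hκ : ∑ l, (m l : ℝ) * κ l = 0) {f : Polynomial ℂ} (hf : f ≠ 0)
    (hfd : f.natDegree ≤ (qq m v P).natDegree)
    (hfc : ∀ j, f.coeff j = if r * ((qq m v P).coeff j).totalDegree + p * j = N then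
      eval (ik κ) (homogeneousComponent ((qq m v P).coeff j).totalDegree ((qq m v P).coeff j)) else 0) :
    LimInf P (Polynomial.aeval (linm m) f) := by
  refine ⟨aeval_linm_ne hmv hf, fun k => ((k : ℝ) + 1) ^ p, fun k l => ((k : ℝ) + 1) ^ r * κ l,
    fun k => sq k ^ N, fun k => by positivity, ?_, ?_⟩
  · exact (tendsto_pow_atTop hp.ne').comp (tendsto_atTop_add_const_right _ _ tendsto_natCast_atTop_atTop)
  refine Pool.Agent.W578.ECPt.t_pt n P.totalDegree _ _ ?_ ?_
  · intro k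
    refine (totalDegree_mul _ _).trans ?_
    rw [totalDegree_C, zero_add]
    exact totalDegree_tr_le _ _ _
  intro x
  have hlim : eval x (Polynomial.aeval (linm m) f) =
      ∑ j ∈ Finset.range ((qq m v P).natDegree + 1), f.coeff j * mu m x ^ j := by
    rw [eval_aeval_linm, Polynomial.eval_eq_sum_range' (Nat.lt_succ_of_le hfd)]
  rw [hlim]
  have hterm : ∀ k : ℕ, eval x (C (sq k ^ N) * tr (((k : ℝ) + 1) ^ p)
      (fun l => ((k : ℝ) + 1) ^ r * κ l) P) =
      ∑ j ∈ Finset.range ((qq m v P).natDegree + 1),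
        (sq k) ^ (N - (r * ((qq m v P).coeff j).totalDegree + p * j)) *
        sc ((qq m v P).coeff j).totalDegree ((qq m v P).coeff j)
          (fun l => (sq k) ^ (r - p) * x l + ik κ l) (sq k ^ r) *
        mu m x ^ j := by
    intro k
    have hks : ((k : ℂ) + 1) = (sq k)⁻¹ := by simp [sq]
    have e1 : (fun i => (((((k : ℝ) + 1) ^ p : ℝ) : ℂ)) * x i +
        Complex.I * ((((k : ℝ) + 1) ^ r * κ i : ℝ) : ℂ)) =
        fun l => ((sq k)⁻¹) ^ p * x l + ((sq k)⁻¹) ^ r * ik κ l := by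
      funext i
      simp only [ik, ← hks]
      push_cast
      ring
    rw [map_mul, eval_C, eval_tr, e1, eval_eq_sum_qq m v P, Finset.mul_sum]
    have e2 : mu m (fun l => ((sq k)⁻¹) ^ p * x l + ((sq k)⁻¹) ^ r * ik κ l) =
        ((sq k)⁻¹) ^ p * mu m x := by
      have : (fun l => ((sq k)⁻¹) ^ p * x l + ((sq k)⁻¹) ^ r * ik κ l) =
          ((sq k)⁻¹ ^ p) • x + ((sq k)⁻¹ ^ r) • ik κ := by
        funext l; simp
      rw [this, mu_add, mu_smul, mu_smul, mu_ik m κ hκ, mul_zero, add_zero]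
    refine Finset.sum_congr rfl fun j _ => ?_
    rw [e2]
    by_cases hc0 : (qq m v P).coeff j = 0
    · rw [hc0]; simp [sc]
    exact term_eq (sq_ne k) hpr (hN j hc0) x (ik κ) (mu m x)
  rw [show (fun k : ℕ => eval x (C (sq k ^ N) * tr (((k : ℝ) + 1) ^ p)
      (fun l => ((k : ℝ) + 1) ^ r * κ l) P)) = _ from funext hterm]
  refine tendsto_finsetSum _ fun j _ => ?_
  refine Tendsto.mul_const _ ?_
  have hsc := sc_lim ((qq m v P).coeff j) ((qq m v P).coeff j).totalDegree x (ik κ)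
    (show r ≠ 0 by omega) (show r - p ≠ 0 by omega)
  by_cases hc0 : (qq m v P).coeff j = 0
  · rw [hfc, hc0]
    simp [sc]
  have h3 := hN j hc0
  rw [hfc]
  by_cases he : r * ((qq m v P).coeff j).totalDegree + p * j = N
  · rw [if_pos he, he, Nat.sub_self]
    simpa using hsc
  · rw [if_neg he]
    have h4 := (sq_lim.pow (N - (r * ((qq m v P).coeff j).totalDegree + p * j))).mul hsc
    rwa [zero_pow (by omega), zero_mul] at h4

/-- the roots lie on one side -/
theorem star_side {m v : Fin n → ℤ} (hmv : ∑ l, m l * v l = 1) {f : Polynomial ℂ} (hf : f ≠ 0)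
    {a : Fin n → ℝ} (ha : ∑ l, (m l : ℝ) * a l ≠ 0) (h : Star {a} (Polynomial.aeval (linm m) f))
    {w : ℂ} (hw : f.eval w = 0) : 0 ≤ (∑ l, (m l : ℝ) * a l) * w.re := by
  set s := ∑ l, (m l : ℝ) * a l with hs
  by_contra hcon
  push Not at hcon
  have hmv' : ∑ l, (m l : ℝ) * (v l : ℝ) = 1 := by exact_mod_cast hmv
  have key : ∀ (ω : ℂ) (t : ℝ), mu m (fun i => (a i : ℂ) * ω + Complex.I * ((t * (v i : ℝ) : ℝ) : ℂ)) =
      (s : ℂ) * ω + Complex.I * (t : ℂ) := by
    intro ω t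
    have h1 : ((∑ l, (m l : ℝ) * (v l : ℝ) : ℝ) : ℂ) = 1 := by rw [hmv']; simp
    calc mu m (fun i => (a i : ℂ) * ω + Complex.I * ((t * (v i : ℝ) : ℝ) : ℂ)) =
        ((∑ l, (m l : ℝ) * a l : ℝ) : ℂ) * ω +
          Complex.I * (t : ℂ) * ((∑ l, (m l : ℝ) * (v l : ℝ) : ℝ) : ℂ) := by
          simp only [mu]
          push_cast
          rw [Finset.sum_mul, Finset.mul_sum, ← Finset.sum_add_distrib]
          exact Finset.sum_congr rfl fun l _ => by ring
      _ = _ := by rw [h1, mul_one]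
  have hsc : (s : ℂ) ≠ 0 := by exact_mod_cast ha
  rcases h a rfl (fun i => w.im * (v i : ℝ)) with h1 | h1
  · have h2 := h1 ((w.re / s : ℝ) : ℂ) (by
      rw [Complex.ofReal_re, div_neg_iff]
      rcases lt_or_gt_of_ne ha with h3 | h3
      · left; exact ⟨by nlinarith, h3⟩
      · right; exact ⟨by nlinarith, h3⟩)
    apply h2
    rw [eval_aeval_linm, key]
    have : (s : ℂ) * ((w.re / s : ℝ) : ℂ) + Complex.I * (w.im : ℂ) = w := by
      push_cast
      rw [mul_div_cancel₀ _ hsc, mul_comm Complex.I]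
      exact Complex.re_add_im w
    rw [this]; exact hw
  · apply hf
    apply Polynomial.funext
    intro z
    have h2 := h1 ((z - Complex.I * (w.im : ℂ)) / (s : ℂ))
    rw [eval_aeval_linm, key] at h2
    have : (s : ℂ) * ((z - Complex.I * (w.im : ℂ)) / (s : ℂ)) + Complex.I * (w.im : ℂ) = z := by
      rw [mul_div_cancel₀ _ hsc]; ring
    rw [this] at h2
    rw [h2]; simp

/-- a nonzero root -/
theorem exists_root_ne {f : Polynomial ℂ} {i j : ℕ} (hij : i ≠ j) (hi : f.coeff i ≠ 0)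
    (hj : f.coeff j ≠ 0) : ∃ w, w ≠ 0 ∧ f.eval w = 0 := by
  have hf : f ≠ 0 := by rintro rfl; simp at hi
  obtain ⟨g, hg, hng⟩ := Polynomial.exists_eq_pow_rootMultiplicity_mul_and_not_dvd f hf 0
  rw [Polynomial.C_0, sub_zero] at hg hng
  have hdeg : g.degree ≠ 0 := by
    intro h0
    obtain ⟨c, hc⟩ : ∃ c, g = Polynomial.C c := ⟨_, Polynomial.eq_C_of_degree_eq_zero h0⟩
    rw [hg, hc, Polynomial.coeff_X_pow_mul', Polynomial.coeff_C] at hi hj
    split_ifs at hi hj with h1 h2 h3 h4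
    all_goals first | (exact hi rfl) | (exact hj rfl) | skip
    omega
  obtain ⟨w, hw⟩ := IsAlgClosed.exists_root g hdeg
  refine ⟨w, ?_, ?_⟩
  · rintro rfl
    apply hng
    rw [← sub_zero Polynomial.X, ← Polynomial.C_0, Polynomial.dvd_iff_isRoot]
    exact hw
  · rw [hg, Polynomial.eval_mul, hw.eq_zero, mul_zero]

/-- the limit polynomial in one variable -/
noncomputable def ff (m v : Fin n → ℤ) (P : MvPolynomial (Fin n) ℂ) (p r N : ℕ) (κ : Fin n → ℝ) :
    Polynomial ℂ := ∑ j ∈ Finset.range ((qq m v P).natDegree + 1), Polynomial.monomial j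
      (if r * ((qq m v P).coeff j).totalDegree + p * j = N then
        eval (ik κ) (homogeneousComponent ((qq m v P).coeff j).totalDegree ((qq m v P).coeff j))
        else 0)

theorem ff_coeff (m v : Fin n → ℤ) (P : MvPolynomial (Fin n) ℂ) (p r N : ℕ) (κ : Fin n → ℝ)
    (j : ℕ) : (ff m v P p r N κ).coeff j =
      if r * ((qq m v P).coeff j).totalDegree + p * j = N then
        eval (ik κ) (homogeneousComponent ((qq m v P).coeff j).totalDegree ((qq m v P).coeff j))
        else 0 := by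
  unfold ff
  rw [Polynomial.finsetSum_coeff]
  by_cases hj : j < (qq m v P).natDegree + 1
  · rw [Finset.sum_eq_single j]
    · rw [Polynomial.coeff_monomial, if_pos rfl]
    · intro i _ hi
      rw [Polynomial.coeff_monomial, if_neg hi]
    · intro h; exact absurd (Finset.mem_range.2 hj) h
  · have h0 : (qq m v P).coeff j = 0 := Polynomial.coeff_eq_zero_of_natDegree_lt (by omega)
    rw [h0]
    simp only [map_zero, ite_self]
    refine Finset.sum_eq_zero fun i hi => ?_
    rw [Finset.mem_range] at hi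
    rw [Polynomial.coeff_monomial, if_neg (by omega)]

theorem ff_deg (m v : Fin n → ℤ) (P : MvPolynomial (Fin n) ℂ) (p r N : ℕ) (κ : Fin n → ℝ) :
    (ff m v P p r N κ).natDegree ≤ (qq m v P).natDegree := by
  rw [Polynomial.natDegree_le_iff_coeff_eq_zero]
  intro j hj
  rw [ff_coeff, Polynomial.coeff_eq_zero_of_natDegree_lt hj]
  simp

theorem ff_eval (m v : Fin n → ℤ) (P : MvPolynomial (Fin n) ℂ) {p r N : ℕ} (κ : Fin n → ℝ)
    {η : ℂ} (hη : η ^ r = -1) (w : ℂ) :
    (ff m v P p r N (fun l => - κ l)).eval (η ^ p * w) = η ^ N * (ff m v P p r N κ).eval w := by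
  rw [Polynomial.eval_eq_sum_range' (Nat.lt_succ_of_le (ff_deg m v P p r N _)),
    Polynomial.eval_eq_sum_range' (Nat.lt_succ_of_le (ff_deg m v P p r N κ)), Finset.mul_sum]
  refine Finset.sum_congr rfl fun j _ => ?_
  rw [ff_coeff, ff_coeff]
  by_cases h : r * ((qq m v P).coeff j).totalDegree + p * j = N
  · rw [if_pos h, if_pos h]
    set c := (qq m v P).coeff j
    have h1 : ik (fun l => - κ l) = fun l => (-1 : ℂ) * ik κ l := by
      funext l; simp [ik]
    rw [h1, Pool.Agent.W721.EC.hom_smul (homogeneousComponent_isHomogeneous _ _), ← h, ← hη,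
      mul_pow, pow_add, ← pow_mul, ← pow_mul]
    ring
  · rw [if_neg h, if_neg h]; simp

theorem exists_rot {p r : ℕ} (hp : 0 < p) (hpr : p < r) : ∃ η : ℂ, η ^ r = -1 ∧ (η ^ p).im ≠ 0 := by
  have hr : (r : ℂ) ≠ 0 := by exact_mod_cast (show r ≠ 0 by omega)
  have hr' : (0 : ℝ) < r := by exact_mod_cast (show 0 < r by omega)
  refine ⟨Complex.exp (Real.pi * Complex.I / r), ?_, ?_⟩
  · rw [← Complex.exp_nat_mul, mul_div_cancel₀ _ hr, Complex.exp_pi_mul_I]
  · rw [← Complex.exp_nat_mul]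
    have : (p : ℂ) * (Real.pi * Complex.I / r) = ((p * Real.pi / r : ℝ) : ℂ) * Complex.I := by
      push_cast; ring
    rw [this, Complex.exp_ofReal_mul_I_im]
    apply ne_of_gt
    apply Real.sin_pos_of_pos_of_lt_pi
    · have : (0 : ℝ) < p := by exact_mod_cast hp
      have := Real.pi_pos
      positivity
    · rw [div_lt_iff₀ hr', mul_comm]
      exact mul_lt_mul_of_pos_left (by exact_mod_cast hpr) Real.pi_pos

theorem inv_hom {m v : Fin n → ℤ} (hmv : ∑ l, m l * v l = 1) (P : MvPolynomial (Fin n) ℂ)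
    (u : Fin n → ℂ) (w : ℂ) (i j : ℕ) :
    eval (pt m v u w) (homogeneousComponent i ((qq m v P).coeff j)) =
      eval u (homogeneousComponent i ((qq m v P).coeff j)) := by
  rw [hom_qq, inv_qq hmv]

/-- **the degree bound** -/
theorem newton_bound {P : MvPolynomial (Fin n) ℂ} {m v : Fin n → ℤ} (hmv : ∑ l, m l * v l = 1)
    {a b : Fin n → ℝ} (ha : ∑ l, (m l : ℝ) * a l < 0) (hb : 0 < ∑ l, (m l : ℝ) * b l)
    (hstar : ∀ q, LimInf P q → Star {a} q ∧ Star {b} q) {μ e : ℕ} (heμ : e + μ = P.totalDegree)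
    (hne : homogeneousComponent e ((qq m v P).coeff μ) ≠ 0)
    (hlow : ∀ j < μ, homogeneousComponent (P.totalDegree - j) ((qq m v P).coeff j) = 0) :
    ∀ j, ((qq m v P).coeff j).totalDegree ≤ e := by
  by_contra hcon
  push Not at hcon
  obtain ⟨j1, hj1⟩ := hcon
  have hdeg := deg_qq m v P
  have hlt : ∀ j < μ, (qq m v P).coeff j ≠ 0 →
      ((qq m v P).coeff j).totalDegree + j < P.totalDegree := by
    intro j hj h0
    refine lt_of_le_of_ne (hdeg j h0) fun h => ?_
    apply Pool.Agent.Q98.EG.homog_ne_zero h0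
    rw [show ((qq m v P).coeff j).totalDegree = P.totalDegree - j by omega]
    exact hlow j hj
  have hne0 : ∀ j, e < ((qq m v P).coeff j).totalDegree → (qq m v P).coeff j ≠ 0 := by
    intro j hj h0
    rw [h0, totalDegree_zero] at hj
    omega
  have hj1μ : j1 < μ := by
    have := hdeg j1 (hne0 j1 hj1)
    omega
  set S := (Finset.range μ).filter (fun j => e < ((qq m v P).coeff j).totalDegree) with hS
  have hSne : S.Nonempty := ⟨j1, by rw [hS, Finset.mem_filter, Finset.mem_range]; exact ⟨hj1μ, hj1⟩⟩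
  obtain ⟨js, hjs, hmax⟩ := Finset.exists_max_image S
    (fun j => ((((qq m v P).coeff j).totalDegree : ℚ) - e) / ((μ : ℚ) - j)) hSne
  rw [hS, Finset.mem_filter, Finset.mem_range] at hjs
  obtain ⟨hjsμ, hjse⟩ := hjs
  obtain ⟨p, hp⟩ : ∃ p, ((qq m v P).coeff js).totalDegree = e + p := ⟨_, (Nat.add_sub_of_le hjse.le).symm⟩
  obtain ⟨r, hr⟩ : ∃ r, μ = js + r := ⟨_, (Nat.add_sub_of_le hjsμ.le).symm⟩
  have hp0 : 0 < p := by omega
  have hpr : p < r := by
    have := hlt js hjsμ (hne0 js hjse)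
    omega
  set N := r * e + p * μ with hN
  have hcμ : (qq m v P).coeff μ ≠ 0 := by
    intro h; rw [h] at hne; simp at hne
  have heμ' : ((qq m v P).coeff μ).totalDegree = e := by
    apply le_antisymm
    · have := hdeg μ hcμ; omega
    · by_contra h
      exact hne (homogeneousComponent_eq_zero _ _ (by omega))
  have hNle : ∀ j, (qq m v P).coeff j ≠ 0 →
      r * ((qq m v P).coeff j).totalDegree + p * j ≤ N := by
    intro j hj0
    by_cases hjμ : j < μ
    · by_cases hje : e < ((qq m v P).coeff j).totalDegree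
      · have h1 := hmax j (by rw [hS, Finset.mem_filter, Finset.mem_range]; exact ⟨hjμ, hje⟩)
        have hjμ' : (0 : ℚ) < (μ : ℚ) - j := by
          have : (j : ℚ) < μ := by exact_mod_cast hjμ
          linarith
        have hjsμ' : (0 : ℚ) < (μ : ℚ) - js := by
          have : (js : ℚ) < μ := by exact_mod_cast hjsμ
          linarith
        rw [div_le_div_iff₀ hjμ' hjsμ', hp, hr] at h1
        push_cast at h1
        have h2 : ((r * ((qq m v P).coeff j).totalDegree + p * j : ℕ) : ℚ) ≤ (N : ℕ) := by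
          rw [hN, hr]
          push_cast
          nlinarith
        exact_mod_cast h2
      · have h1 : r * ((qq m v P).coeff j).totalDegree ≤ r * e := Nat.mul_le_mul_left _ (by omega)
        have h2 : p * j ≤ p * μ := Nat.mul_le_mul_left _ hjμ.le
        omega
    · obtain ⟨t, ht⟩ : ∃ t, j = μ + t := ⟨_, (Nat.add_sub_of_le (by omega)).symm⟩
      have h1 := hdeg j hj0
      have h2 : ((qq m v P).coeff j).totalDegree + t ≤ e := by omega
      have h3 : r * (((qq m v P).coeff j).totalDegree + t) ≤ r * e := Nat.mul_le_mul_left _ h2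
      have h4 : p * t ≤ r * t := Nat.mul_le_mul_right _ hpr.le
      have h5 : p * j = p * μ + p * t := by rw [ht]; ring
      rw [mul_add] at h3
      omega
  -- the direction
  obtain ⟨κ', -, hκ'⟩ := Pool.Agent.Q251.EG.Reg.perturb
    (mul_ne_zero hne (Pool.Agent.Q98.EG.homog_ne_zero (hne0 js hjse))) (fun _ : Fin n => (0 : ℝ))
    zero_lt_one
  rw [map_mul] at hκ'
  set κ : Fin n → ℝ := fun l => κ' l - (∑ k, (m k : ℝ) * κ' k) * (v l : ℝ) with hκ
  have hmv' : ∑ l, (m l : ℝ) * (v l : ℝ) = 1 := by exact_mod_cast hmv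
  have hmκ : ∑ l, (m l : ℝ) * κ l = 0 := by
    have : ∑ l, (m l : ℝ) * κ l = ∑ l, (m l : ℝ) * κ' l -
        (∑ k, (m k : ℝ) * κ' k) * ∑ l, (m l : ℝ) * (v l : ℝ) := by
      rw [Finset.mul_sum, ← Finset.sum_sub_distrib]
      exact Finset.sum_congr rfl fun l _ => by rw [hκ]; ring
    rw [this, hmv', mul_one, sub_self]
  have hmκ2 : ∑ l, (m l : ℝ) * (- κ l) = 0 := by
    simp only [mul_neg, Finset.sum_neg_distrib, hmκ, neg_zero]
  have hik : ik κ = pt m v (ik κ') 0 := by
    funext l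
    have h1 : mu m (ik κ') = Complex.I * ((∑ l, (m l : ℝ) * κ' l : ℝ) : ℂ) := by
      simp only [mu, ik]
      push_cast
      rw [Finset.mul_sum]
      exact Finset.sum_congr rfl fun l _ => by ring
    simp only [pt, h1]
    simp only [ik, hκ]
    push_cast
    ring
  have hκμ : eval (ik κ) (homogeneousComponent e ((qq m v P).coeff μ)) ≠ 0 := by
    rw [hik, inv_hom hmv]
    exact left_ne_zero_of_mul hκ'
  have hκs : eval (ik κ) (homogeneousComponent ((qq m v P).coeff js).totalDegree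
      ((qq m v P).coeff js)) ≠ 0 := by
    rw [hik, inv_hom hmv]
    exact right_ne_zero_of_mul hκ'
  have hfμ : (ff m v P p r N κ).coeff μ ≠ 0 := by
    rw [ff_coeff, heμ', if_pos hN.symm]; exact hκμ
  have hfs : (ff m v P p r N κ).coeff js ≠ 0 := by
    rw [ff_coeff, if_pos (by rw [hp, hN, hr]; ring)]; exact hκs
  obtain ⟨w, hw0, hw⟩ := exists_root_ne (show μ ≠ js by omega) hfμ hfs
  obtain ⟨η, hη, hηp⟩ := exists_rot hp0 hpr
  have hη0 : η ≠ 0 := by
    rintro rfl
    rw [zero_pow (by omega)] at hη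
    norm_num at hη
  have hf0 : ff m v P p r N κ ≠ 0 := by
    intro h; rw [h] at hfμ; simp at hfμ
  have hrel := ff_eval m v P (p := p) (r := r) (N := N) κ hη
  have hf0' : ff m v P p r N (fun l => - κ l) ≠ 0 := by
    intro h
    apply hf0
    apply Polynomial.funext
    intro z
    have h1 := hrel z
    rw [h, Polynomial.eval_zero] at h1
    rw [Polynomial.eval_zero]
    exact (mul_eq_zero.1 h1.symm).resolve_left (pow_ne_zero _ hη0)
  have hre : ∀ (f : Polynomial ℂ), f ≠ 0 → LimInf P (Polynomial.aeval (linm m) f) →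
      ∀ z, f.eval z = 0 → z.re = 0 := by
    intro f hf hlim z hz
    obtain ⟨s1, s2⟩ := hstar _ hlim
    have h1 := star_side hmv hf ha.ne s1 hz
    have h2 := star_side hmv hf hb.ne' s2 hz
    apply le_antisymm
    · by_contra h
      push Not at h
      nlinarith
    · by_contra h
      push Not at h
      nlinarith
  have hw1 := hre _ hf0 (limInf_newton hmv hp0 hpr hNle κ hmκ hf0 (ff_deg _ _ _ _ _ _ _)
    (ff_coeff m v P p r N κ)) w hw
  have hw2 := hre _ hf0' (limInf_newton hmv hp0 hpr hNle _ hmκ2 hf0' (ff_deg _ _ _ _ _ _ _)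
    (ff_coeff m v P p r N _)) (η ^ p * w) (by rw [hrel, hw, mul_zero])
  rw [Complex.mul_re, hw1, mul_zero, zero_sub, neg_eq_zero] at hw2
  rcases mul_eq_zero.1 hw2 with h | h
  · exact hηp h
  · exact hw0 (Complex.ext hw1 h)

end Pool.Agent.Helper57.RA
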