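import Pool.Agent.Helper57.RA.Def
import Pool.Graph.R_pool_sql_team_seeded_1acbe0a2.Y562.SX.Main

/-!
Project RA (helper57): a polynomial in `x` and `Y` which does not vanish on the hypersurface does not
vanish at the points `x = u - (m u) v + α(u) v`, `Y = exp (α u)` (Ax's theorem on a line).
-/

set_option autoImplicit false

namespace Pool.Agent.Helper57.RA

open MvPolynomial Filter Topology Metric Pool.Agent.W996.EC Pool.Agent.Q72.EG

variable {n : ℕ}

theorem qq_eval_linm (m v : Fin n → ℤ) (P : MvPolynomial (Fin n) ℂ) :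
    (qq m v P).eval (linm m) = P := by
  apply MvPolynomial.funext
  intro u
  have h := eval_qq m v P u (mu m u)
  rw [pt_mu] at h
  rw [← h, ← eval_linm m u, Polynomial.eval_map]
  rw [← Polynomial.eval₂_id (p := qq m v P) (x := linm m), Polynomial.hom_eval₂]
  simp

/-- `P` is not constant in the direction `v` along the graph -/
theorem not_const {P : MvPolynomial (Fin n) ℂ} (hP : Irreducible P) {m v : Fin n → ℤ}
    (hmv : ∑ l, m l * v l = 1) (hnc : ∀ c : ℂ, ¬ P ∣ linm m - C c)
    {c : Fin n → ℂ} {r : ℝ} (hr : 0 < r) (c0 : ℂ)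
    (h : ∀ u ∈ ball c r, eval (pt m v u c0) P = 0) : False := by
  have h1 : (qq m v P).eval (C c0) = 0 := by
    by_contra h0
    obtain ⟨u, hu, hu2⟩ := exists_mem_ball h0 c hr
    apply hu2
    have h2 := eval_qq m v P u c0
    rw [h u hu, Polynomial.eval_map] at h2
    rw [← Polynomial.eval₂_id (p := qq m v P) (x := C c0), Polynomial.hom_eval₂]
    simpa using h2
  have h2 : Polynomial.X - Polynomial.C (C c0) ∣ qq m v P := Polynomial.dvd_iff_isRoot.2 h1
  obtain ⟨g, hg⟩ := h2
  have h3 : linm m - C c0 ∣ P := by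
    rw [← qq_eval_linm m v P, hg]
    exact ⟨g.eval (linm m), by simp⟩
  rcases hP.dvd_iff.1 h3 with hu | hu
  · have h4 : IsUnit (eval (fun l => c0 * (v l : ℂ)) (linm m - C c0)) :=
      hu.map (eval (fun l => c0 * (v l : ℂ)))
    have h5 : mu m (fun l => c0 * (v l : ℂ)) = c0 := by
      have h6 : ∑ l, (m l : ℂ) * (v l : ℂ) = 1 := by exact_mod_cast hmv
      simp only [mu]
      calc ∑ l, (m l : ℂ) * (c0 * (v l : ℂ)) = c0 * ∑ l, (m l : ℂ) * (v l : ℂ) := by
            rw [Finset.mul_sum]; exact Finset.sum_congr rfl fun l _ => by ring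
        _ = c0 := by rw [h6, mul_one]
    rw [map_sub, eval_linm, eval_C, h5, sub_self] at h4
    exact not_isUnit_zero h4
  · exact hnc c0 hu.dvd

/-- polynomials along a line -/
theorem line_poly (g : MvPolynomial (Option (Fin n)) ℂ) (u0 ζ : Fin n → ℂ) :
    ∃ h : MvPolynomial (Option (Fin 1)) ℂ, ∀ (τ W : ℂ),
      eval (fun o : Option (Fin 1) => o.elim τ (fun _ => W)) h =
        eval (oe W (fun l => u0 l + τ * ζ l)) g := by
  refine ⟨aeval (fun o : Option (Fin n) => o.elim (X (some 0)) (fun l => C (u0 l) + X none * C (ζ l))) g,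
    fun τ W => ?_⟩
  induction g using MvPolynomial.induction_on with
  | C c => simp
  | add p q hp hq => rw [map_add, map_add, hp, hq, map_add]
  | mul_X p i hp =>
    rw [map_mul, map_mul, hp, map_mul, aeval_X, eval_X]
    congr 1
    rcases i with _ | l
    · simp
    · simp

theorem exists_cf_ne {g : MvPolynomial (Option (Fin n)) ℂ} (hg : g ≠ 0) : ∃ j, cf g j ≠ 0 := by
  by_contra h
  push Not at h
  apply hg
  have : optionEquivLeft ℂ (Fin n) g = 0 := Polynomial.ext fun j => by
    rw [Polynomial.coeff_zero]; exact h j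
  exact (map_eq_zero_iff _ (optionEquivLeft ℂ (Fin n)).injective).1 this

theorem exists_W {g : MvPolynomial (Option (Fin n)) ℂ} {j : ℕ} {u : Fin n → ℂ}
    (h : eval u (cf g j) ≠ 0) : ∃ W : ℂ, eval (oe W u) g ≠ 0 := by
  by_contra h2
  push Not at h2
  apply h
  have h3 : (optionEquivLeft ℂ (Fin n) g).map (eval u) = 0 := by
    apply Polynomial.funext
    intro W
    rw [← Pool.Agent.Q252.EG.eval_e, h2 W, Polynomial.eval_zero]
  have h4 := congrArg (fun p => Polynomial.coeff p j) h3
  simpa [cf] using h4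

/-- elimination of the direction `v`, with an additional variable `Y` -/
theorem elim_rel {P : MvPolynomial (Fin n) ℂ} (hP : Irreducible P) {v : Fin n → ℤ}
    (hinv : ∃ (x : Fin n → ℂ) (t : ℂ), eval (fun l => x l + t * (v l : ℂ)) P ≠ eval x P)
    {a : MvPolynomial (Option (Fin n)) ℂ} (ha : ∃ j, ¬ P ∣ cf a j) :
    ∃ g : MvPolynomial (Option (Fin n)) ℂ, g ≠ 0 ∧ ∀ (Y w : ℂ) (u : Fin n → ℂ),
      eval (fun l => u l + w * (v l : ℂ)) P = 0 →
      eval (oe Y (fun l => u l + w * (v l : ℂ))) a = 0 → eval (oe Y u) g = 0 := by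
  set e : Option (Fin n) ≃ Fin (n + 1) := (finSuccEquiv n).symm with he
  set P2 : MvPolynomial (Fin (n + 1)) ℂ := rename e (rename some P) with hP2
  set a2 : MvPolynomial (Fin (n + 1)) ℂ := rename e a with ha2
  have hcons : ∀ (Y : ℂ) (u : Fin n → ℂ), (Fin.cons Y u : Fin (n + 1) → ℂ) ∘ e = oe Y u := by
    intro Y u
    funext o
    rcases o with _ | l
    · simp [he]
    · simp [he]
  have hoe : ∀ (Y : ℂ) (u : Fin n → ℂ), (oe Y u) ∘ some = u := fun Y u => rfl
  have hprime : Prime (rename some P : MvPolynomial (Option (Fin n)) ℂ) := by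
    have h1 : Prime (Polynomial.C P) := Polynomial.prime_C_iff.2 hP.prime
    rw [← Pool.Agent.Q252.EG.e_rename] at h1
    exact (MulEquiv.prime_iff (optionEquivLeft ℂ (Fin n)).toMulEquiv).1 h1
  have hprime2 : Prime P2 := by
    have := (MulEquiv.prime_iff (renameEquiv ℂ e).toMulEquiv).2 hprime
    exact this
  have hnd : ¬ P2 ∣ a2 := by
    intro h
    obtain ⟨j, hj⟩ := ha
    apply hj
    have h1 : (renameEquiv ℂ e) (rename some P) ∣ (renameEquiv ℂ e) a := h
    have h2 := (map_dvd_iff (renameEquiv ℂ e)).1 h1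
    have h3 := (map_dvd_iff (optionEquivLeft ℂ (Fin n))).2 h2
    rw [Pool.Agent.Q252.EG.e_rename] at h3
    exact (Polynomial.C_dvd_iff_dvd_coeff _ _).1 h3 j
  set d : Fin (n + 1) → ℝ := Fin.cons 0 (fun l => (v l : ℝ)) with hd
  have hsh : ∀ (Y w : ℂ) (u : Fin n → ℂ), (fun l => (Fin.cons Y u : Fin (n + 1) → ℂ) l + w * (d l : ℂ)) =
      (Fin.cons Y (fun l => u l + w * (v l : ℂ)) : Fin (n + 1) → ℂ) := by
    intro Y w u
    funext l
    refine Fin.cases ?_ (fun l => ?_) l
    · simp [hd]
    · simp [hd]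
  have heP : ∀ (Y : ℂ) (u : Fin n → ℂ), eval (Fin.cons Y u : Fin (n + 1) → ℂ) P2 = eval u P := by
    intro Y u
    rw [hP2, eval_rename, hcons, eval_rename, hoe]
  have hea : ∀ (Y : ℂ) (u : Fin n → ℂ), eval (Fin.cons Y u : Fin (n + 1) → ℂ) a2 = eval (oe Y u) a := by
    intro Y u
    rw [ha2, eval_rename, hcons]
  obtain ⟨ρ, A, B, hρ, hrel⟩ := Pool.Agent.Q252.EG.elim (n + 1) P2 a2 d hprime2.irreducible (by
    obtain ⟨x, t, hxt⟩ := hinv
    refine ⟨Fin.cons 0 x, t, ?_⟩
    rw [hsh, heP, heP]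
    exact hxt) hnd
  refine ⟨rename e.symm ρ, ?_, ?_⟩
  · intro h
    apply hρ
    exact rename_injective _ e.symm.injective (by rw [h, map_zero])
  · intro Y w u h1 h2
    have h3 : (oe Y u) ∘ e.symm = (Fin.cons Y u : Fin (n + 1) → ℂ) := by
      rw [← hcons]
      funext l
      simp
    rw [eval_rename, h3, hrel _ w, hsh, heP, hea, h1, h2]
    simp

/-- **Ax's theorem on lines** -/
theorem ax_ne {P : MvPolynomial (Fin n) ℂ} (hP : Irreducible P) {m v : Fin n → ℤ}
    (hmv : ∑ l, m l * v l = 1) (hnc : ∀ c : ℂ, ¬ P ∣ linm m - C c)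
    {a : MvPolynomial (Option (Fin n)) ℂ} (ha : ∃ j, ¬ P ∣ cf a j)
    {c : Fin n → ℂ} {r : ℝ} (hr : 0 < r) {α : (Fin n → ℂ) → ℂ}
    (hα : DifferentiableOn ℂ α (ball c r))
    (hPα : ∀ u ∈ ball c r, eval (pt m v u (α u)) P = 0) :
    ∃ u ∈ ball c r, eval (oe (Complex.exp (α u)) (pt m v u (α u))) a ≠ 0 := by
  by_contra hcon
  push Not at hcon
  have hpt : ∀ (u : Fin n → ℂ) (w : ℂ), pt m v u w = fun l => u l + (w - mu m u) * (v l : ℂ) := by
    intro u w; funext l; simp only [pt]; ring
  have hinv : ∃ (x : Fin n → ℂ) (t : ℂ), eval (fun l => x l + t * (v l : ℂ)) P ≠ eval x P := by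
    by_contra h
    push Not at h
    obtain ⟨u, hu, hu2⟩ := exists_mem_ball hP.ne_zero c hr
    apply hu2
    have h1 := hPα u hu
    rw [hpt, h] at h1
    exact h1
  obtain ⟨g2, hg2, hrel2⟩ := elim_rel hP hinv ha
  set g1 : MvPolynomial (Option (Fin n)) ℂ := (optionEquivLeft ℂ (Fin n)).symm (qq m v P) with hg1
  have hg1e : ∀ (w : ℂ) (u : Fin n → ℂ), eval (oe w u) g1 = eval (pt m v u w) P := by
    intro w u
    rw [Pool.Agent.Q252.EG.eval_e, hg1, AlgEquiv.apply_symm_apply, eval_qq]
  have hg10 : g1 ≠ 0 := by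
    intro h
    obtain ⟨u, hu, hu2⟩ := exists_mem_ball hP.ne_zero c hr
    apply hu2
    have := hg1e (mu m u) u
    rw [h, pt_mu, map_zero] at this
    exact this.symm
  obtain ⟨j1, hj1⟩ := exists_cf_ne hg10
  obtain ⟨j2, hj2⟩ := exists_cf_ne hg2
  obtain ⟨u0, hu0, hne⟩ := exists_mem_ball (mul_ne_zero hj1 hj2) c hr
  rw [map_mul] at hne
  obtain ⟨W1, hW1⟩ := exists_W (left_ne_zero_of_mul hne)
  obtain ⟨W2, hW2⟩ := exists_W (right_ne_zero_of_mul hne)
  -- a second point
  obtain ⟨u1, hu1, hu1n⟩ : ∃ u1 ∈ ball c r, α u1 ≠ α u0 := by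
    by_contra h
    push Not at h
    exact not_const hP hmv hnc hr (α u0) fun u hu => by rw [← h u hu]; exact hPα u hu
  set ζ : Fin n → ℂ := fun l => u1 l - u0 l with hζ
  set L : ℂ → Fin n → ℂ := fun τ l => u0 l + τ * ζ l with hL
  have hLd : Differentiable ℂ L := by
    rw [differentiable_pi]
    intro l
    exact (differentiable_id.mul_const _).const_add _
  set U : Set ℂ := L ⁻¹' ball c r with hU
  have hUo : IsOpen U := isOpen_ball.preimage hLd.continuous
  have hUc : Convex ℝ U := by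
    intro x hx y hy s t hs ht hst
    have h1 := convex_ball c r hx hy hs ht hst
    show L (s • x + t • y) ∈ ball c r
    convert h1 using 1
    funext l
    have hst' : (s : ℂ) + (t : ℂ) = 1 := by exact_mod_cast hst
    simp only [hL, Pi.add_apply, Pi.smul_apply, Complex.real_smul]
    linear_combination (-(u0 l)) * hst'
  have h0U : (0 : ℂ) ∈ U := by
    show L 0 ∈ ball c r
    have : L 0 = u0 := by funext l; simp [hL]
    rw [this]; exact hu0
  have h1U : (1 : ℂ) ∈ U := by
    show L 1 ∈ ball c r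
    have : L 1 = u1 := by funext l; simp [hL, hζ]
    rw [this]; exact hu1
  set φ : ℂ → ℂ := fun τ => α (L τ) with hφ
  have hφd : DifferentiableOn ℂ φ U := hα.comp hLd.differentiableOn fun τ hτ => hτ
  have hφa : AnalyticOnNhd ℂ φ U := hφd.analyticOnNhd hUo
  have hφ0 : φ 0 = α u0 := by
    show α (L 0) = α u0
    congr 1
    funext l; simp [hL]
  have hφ1 : φ 1 = α u1 := by
    show α (L 1) = α u1
    congr 1
    funext l; simp [hL, hζ]
  obtain ⟨I, -, hI⟩ := Pool.Agent.Y562.SX.exists_ind (n := 1) hUc.isPreconnected hUo ⟨0, h0U⟩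
    (z := fun _ => φ) (fun _ => hφa) (by
      rintro q ⟨c', hc'⟩
      funext i
      have hi : i = 0 := Subsingleton.elim _ _
      subst hi
      simp only [Finset.univ_unique, Fin.default_eq_zero, Finset.sum_singleton] at hc'
      have h1 := (hc' 0 h0U).trans (hc' 1 h1U).symm
      rw [hφ0, hφ1] at h1
      by_contra hq
      have hq' : (q 0 : ℂ) ≠ 0 := by exact_mod_cast hq
      exact hu1n (mul_left_cancel₀ hq' h1).symm)
  obtain ⟨h1, hh1⟩ := line_poly g1 u0 ζ
  obtain ⟨h2, hh2⟩ := line_poly g2 u0 ζ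
  have hne1 : h1 ≠ 0 := by
    intro h
    apply hW1
    have := hh1 0 W1
    rw [h, map_zero] at this
    rw [this]
    congr 2
    funext l; simp
  have hne2 : h2 ≠ 0 := by
    intro h
    apply hW2
    have := hh2 0 W2
    rw [h, map_zero] at this
    rw [this]
    congr 2
    funext l; simp
  rcases hcase : I 0 with i | i
  · apply hne1
    apply hI
    intro τ hτ
    have e1 : (fun o : Option (Fin 1) => o.elim τ fun x =>
        Pool.Agent.Y562.SX.ze (fun _ => φ) (I x) τ) = fun o : Option (Fin 1) => o.elim τ fun _ => φ τ := by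
      funext o
      rcases o with _ | x
      · rfl
      · have hx : x = 0 := Subsingleton.elim _ _
        subst hx
        simp only [Option.elim_some]
        rw [hcase]
        rfl
    rw [e1, hh1, hg1e]
    exact hPα (L τ) hτ
  · apply hne2
    apply hI
    intro τ hτ
    have e1 : (fun o : Option (Fin 1) => o.elim τ fun x =>
        Pool.Agent.Y562.SX.ze (fun _ => φ) (I x) τ) =
        fun o : Option (Fin 1) => o.elim τ fun _ => Complex.exp (φ τ) := by
      funext o
      rcases o with _ | x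
      · rfl
      · have hx : x = 0 := Subsingleton.elim _ _
        subst hx
        simp only [Option.elim_some]
        rw [hcase]
        rfl
    rw [e1, hh2]
    refine hrel2 _ (φ τ - mu m (L τ)) _ ?_ ?_
    · have := hPα (L τ) hτ
      rw [hpt] at this
      exact this
    · have := hcon (L τ) hτ
      rw [hpt] at this
      exact this

end Pool.Agent.Helper57.RA
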