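import Pool.Agent.Helper57.RA.Def

/-!
Project RA (helper57): exponential points from flat regions.
-/

set_option autoImplicit false

namespace Pool.Agent.Helper57.RA

open MvPolynomial Filter Topology Metric Pool.Agent.W996.EC Pool.Agent.Q72.EG

variable {n : ℕ}

/-- arbitrarily far away there are integral points `2πi M`, `m · M = 0`, and holomorphic pieces
`u - (m u) v + α(u) v` of the hypersurface over a ball around `2πi M` on which all
is of polynomial size -/
def HasFlatRegion (P : MvPolynomial (Fin n) ℂ) (m v : Fin n → ℤ) : Prop :=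
  ∀ a : MvPolynomial (Option (Fin n)) ℂ, (∃ j, ¬ P ∣ cf a j) → ∃ D : ℕ, ∀ K : ℝ,
    ∃ T : ℝ, K ≤ T ∧ 2 ≤ T ∧
    ∃ (M : Fin n → ℤ) (α : (Fin n → ℂ) → ℂ), ∑ l, m l * M l = 0 ∧
      DifferentiableOn ℂ α
        (ball (fun l => 2 * Real.pi * Complex.I * (M l : ℂ)) (K * Real.log T)) ∧
      ∀ u ∈ ball (fun l => 2 * Real.pi * Complex.I * (M l : ℂ) : Fin n → ℂ) (K * Real.log T),
        eval (pt m v u (α u)) P = 0 ∧ (∀ l, ‖pt m v u (α u) l‖ ≤ T ^ D) ∧
        ‖Complex.exp (α u)‖ ≤ T ^ D ∧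
        1 ≤ T ^ D * ‖eval (oe (Complex.exp (α u)) (pt m v u (α u))) a‖

theorem le_two_pow (r : ℝ) : ∃ N : ℕ, r ≤ 2 ^ N := by
  obtain ⟨N, hN⟩ := exists_nat_ge r
  refine ⟨N, hN.trans ?_⟩
  have : N < 2 ^ N := Nat.lt_two_pow_self
  exact_mod_cast this.le

/-- values of polynomials are of polynomial size -/
theorem poly_size {σ : Type} (D : ℕ) (g : MvPolynomial σ ℂ) :
    ∃ N : ℕ, ∀ T : ℝ, 2 ≤ T → ∀ t : σ → ℂ, (∀ i, ‖t i‖ ≤ T ^ D) → ‖eval t g‖ ≤ T ^ N := by
  induction g using MvPolynomial.induction_on with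
  | C c =>
    obtain ⟨N, hN⟩ := le_two_pow ‖c‖
    refine ⟨N, fun T hT t _ => ?_⟩
    rw [eval_C]
    exact hN.trans (pow_le_pow_left₀ (by norm_num) hT N)
  | add p q hp hq =>
    obtain ⟨N1, h1⟩ := hp
    obtain ⟨N2, h2⟩ := hq
    refine ⟨N1 + N2 + 1, fun T hT t ht => ?_⟩
    have hT1 : (1 : ℝ) ≤ T := by linarith
    rw [map_add]
    have a1 := h1 T hT t ht
    have a2 := h2 T hT t ht
    have b1 : T ^ N1 ≤ T ^ (N1 + N2) := pow_le_pow_right₀ hT1 (by omega)
    have b2 : T ^ N2 ≤ T ^ (N1 + N2) := pow_le_pow_right₀ hT1 (by omega)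
    have b3 : (0 : ℝ) ≤ T ^ (N1 + N2) := by positivity
    calc ‖eval t p + eval t q‖ ≤ ‖eval t p‖ + ‖eval t q‖ := norm_add_le _ _
      _ ≤ 2 * T ^ (N1 + N2) := by linarith
      _ ≤ T ^ (N1 + N2 + 1) := by rw [pow_succ]; nlinarith
  | mul_X p i hp =>
    obtain ⟨N1, h1⟩ := hp
    refine ⟨N1 + D, fun T hT t ht => ?_⟩
    rw [map_mul, eval_X, norm_mul, pow_add]
    have : (0 : ℝ) ≤ T ^ N1 := by positivity
    exact mul_le_mul (h1 T hT t ht) (ht i) (norm_nonneg _) this

/-- the same for finitely many polynomials -/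
theorem poly_size_fin {σ ι : Type} [Finite ι] (D : ℕ) (g : ι → MvPolynomial σ ℂ) :
    ∃ N : ℕ, ∀ T : ℝ, 2 ≤ T → ∀ t : σ → ℂ, (∀ i, ‖t i‖ ≤ T ^ D) → ∀ k, ‖eval t (g k)‖ ≤ T ^ N := by
  choose N hN using fun k => poly_size D (g k)
  have := Fintype.ofFinite ι
  refine ⟨∑ k, N k, fun T hT t ht k => (hN k T hT t ht).trans ?_⟩
  exact pow_le_pow_right₀ (by linarith) (Finset.single_le_sum (fun _ _ => Nat.zero_le _) (Finset.mem_univ k))

/-- integral monomials as polynomials in the `y_l` and their inverses -/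
theorem prod_zpow_rel {F : Type} [Field F] (y : Fin n → F) (_ : ∀ l, y l ≠ 0) (m : Fin n → ℤ) :
    ∏ l, y l ^ m l = ∏ l, (y l ^ (m l).toNat * (y l)⁻¹ ^ (-(m l)).toNat) := by
  refine Finset.prod_congr rfl fun l _ => ?_
  rcases le_total 0 (m l) with h | h
  · have h2 : (-(m l)).toNat = 0 := Int.toNat_of_nonpos (by omega)
    rw [h2, pow_zero, mul_one, ← zpow_natCast, Int.toNat_of_nonneg h]
  · have h2 : (m l).toNat = 0 := Int.toNat_of_nonpos h
    rw [h2, pow_zero, one_mul, ← zpow_natCast, Int.toNat_of_nonneg (by omega), inv_zpow', neg_neg]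

section field

variable {E : Type} [Field E] [Algebra ℂ E]

/-- relations between `x` and a function transcendental over `ℂ(x)` -/
theorem dvd_of_tr {P : MvPolynomial (Fin n) ℂ} {x : Fin n → E}
    (hx : ∀ g : MvPolynomial (Fin n) ℂ, aeval x g = 0 ↔ P ∣ g) {η : E}
    (hη : Transcendental (IntermediateField.adjoin ℂ (Set.range x)) η)
    (A : MvPolynomial (Option (Fin n)) ℂ) (hA : aeval (oe η x) A = 0) (j : ℕ) : P ∣ cf A j := by
  set K0 := IntermediateField.adjoin ℂ (Set.range x) with hK0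
  have hmem : ∀ g : MvPolynomial (Fin n) ℂ, aeval x g ∈ K0 := by
    intro g
    induction g using MvPolynomial.induction_on with
    | C c => rw [aeval_C]; exact IntermediateField.algebraMap_mem _ _
    | add p q hp hq => rw [map_add]; exact add_mem hp hq
    | mul_X p i hp =>
      rw [map_mul, aeval_X]
      exact mul_mem hp (IntermediateField.subset_adjoin _ _ ⟨i, rfl⟩)
  rw [aeval_oe_sum] at hA
  set d := (optionEquivLeft ℂ (Fin n) A).natDegree + 1 with hd
  set p : Polynomial K0 := ∑ i ∈ Finset.range d,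
    Polynomial.monomial i (⟨aeval x (cf A i), hmem _⟩ : K0) with hp
  have hp0 : p = 0 := by
    by_contra hne
    apply hη
    refine ⟨p, hne, ?_⟩
    rw [hp, map_sum]
    simp only [Polynomial.aeval_monomial]
    rw [← hA]
    rfl
  rw [← hx]
  by_cases hj : j < d
  · have h1 : p.coeff j = (⟨aeval x (cf A j), hmem _⟩ : K0) := by
      rw [hp, Polynomial.finsetSum_coeff]
      simp only [Polynomial.coeff_monomial]
      rw [Finset.sum_ite_eq' (Finset.range d) j, if_pos (Finset.mem_range.2 hj)]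
    rw [hp0, Polynomial.coeff_zero] at h1
    exact (congrArg Subtype.val h1).symm
  · have : cf A j = 0 := Polynomial.coeff_eq_zero_of_natDegree_lt (by omega)
    rw [this, map_zero]

/-- **exponential points from a flat region** -/
theorem solve {P : MvPolynomial (Fin n) ℂ} (hP : Irreducible P) {x y : Fin n → E}
    (hx : ∀ g : MvPolynomial (Fin n) ℂ, aeval x g = 0 ↔ P ∣ g) (hy : ∀ l, y l ≠ 0)
    (htr : Tr1 x) {m v : Fin n → ℤ} (hmv : ∑ l, m l * v l = 1)
    (hη : Transcendental (IntermediateField.adjoin ℂ (Set.range x)) (∏ l, y l ^ m l))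
    (hreg : HasFlatRegion P m v) {H : MvPolynomial (Fin n ⊕ Fin n) ℂ}
    (hH : aeval (Sum.elim x y) H ≠ 0) :
    ∃ z : Fin n → ℂ, Sum.elim z (fun l => Complex.exp (z l)) ∈ Pt (Sum.elim x y) ∧
      eval (Sum.elim z (fun l => Complex.exp (z l))) H ≠ 0 := by
  classical
  set η : E := ∏ l, y l ^ m l with hηd
  set ζ : Option (Fin n) → E := oe η x with hζ
  have hrange : Set.range ζ = insert η (Set.range x) := by
    ext z
    constructor
    · rintro ⟨o, rfl⟩
      rcases o with _ | l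
      · exact Or.inl rfl
      · exact Or.inr ⟨l, rfl⟩
    · rintro (rfl | ⟨l, rfl⟩)
      · exact ⟨none, rfl⟩
      · exact ⟨some l, rfl⟩
  have hall : ∀ g : E, IsAlgebraic (IntermediateField.adjoin ℂ (Set.range ζ)) g := by
    intro g
    rw [hrange]
    exact htr η g hη
  have hptζ : ∀ (x' : Fin n → ℂ) (Y : ℂ), eval x' P = 0 → oe Y x' ∈ Pt ζ := by
    intro x' Y hx' g hg
    rw [eval_oe_sum]
    refine Finset.sum_eq_zero fun j _ => ?_
    obtain ⟨c, hc⟩ := dvd_of_tr hx hη g hg j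
    rw [hc, map_mul, hx', zero_mul, zero_mul]
  have hnd : ∀ g : MvPolynomial (Option (Fin n)) ℂ, aeval ζ g ≠ 0 → ∃ j, ¬ P ∣ cf g j := by
    intro g hg
    by_contra h
    push Not at h
    apply hg
    rw [hζ, aeval_oe_sum]
    refine Finset.sum_eq_zero fun j _ => ?_
    rw [(hx _).2 (h j), zero_mul]
  set f : Fin n ⊕ (Fin n ⊕ Unit) → E := Sum.elim y (Sum.elim (fun l => (y l)⁻¹)
    (fun _ => (aeval (Sum.elim x y) H)⁻¹)) with hf
  obtain ⟨Θ, H1, g, hH1, ha, hb, hc⟩ := Pool.Agent.Q166.EG.alg E (Option (Fin n))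
    (Fin n ⊕ (Fin n ⊕ Unit)) ζ f (fun k => hall (f k))
  -- a point of the variety
  obtain ⟨p0, hp0, hp0H⟩ : ∃ p ∈ Pt (Sum.elim ζ f), eval p (rename Sum.inl H1) ≠ 0 := by
    set I : Ideal (MvPolynomial (Option (Fin n) ⊕ (Fin n ⊕ (Fin n ⊕ Unit))) ℂ) :=
      RingHom.ker (aeval (Sum.elim ζ f) : MvPolynomial _ ℂ →ₐ[ℂ] E).toRingHom with hI
    have hIp : I.IsPrime := RingHom.ker_isPrime _
    have hmemI : ∀ q, q ∈ I ↔ aeval (Sum.elim ζ f) q = 0 := fun q => RingHom.mem_ker
    by_contra hcon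
    push Not at hcon
    have h1 : (1 : MvPolynomial (Option (Fin n) ⊕ (Fin n ⊕ (Fin n ⊕ Unit))) ℂ) ∈ I := by
      refine Pool.Agent.W333.ECV.nullst I hIp (rename Sum.inl H1) ?_ 1 ?_
      · rw [hmemI, aeval_rename]
        exact hH1
      · intro p hp hp2
        exact absurd (hcon p fun q hq => hp q ((hmemI q).2 hq)) hp2
    rw [hmemI, map_one] at h1
    exact one_ne_zero h1
  have hdeg : Θ.natDegree ≠ 0 := by
    intro h0
    have e1 : Sum.elim (p0 ∘ Sum.inl) (p0 ∘ Sum.inr) = p0 := Sum.elim_comp_inl_inr p0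
    rw [eval_rename] at hp0H
    obtain ⟨z, hz, -⟩ := hb (p0 ∘ Sum.inl) (p0 ∘ Sum.inr) (by rw [e1]; exact hp0) hp0H
    have hpζ : p0 ∘ Sum.inl ∈ Pt ζ := by
      intro q hq
      have := hp0 (rename Sum.inl q) (by rw [aeval_rename]; exact hq)
      rwa [eval_rename] at this
    have h3 := (ha _ hpζ hp0H).1
    have h4 := Polynomial.eq_C_of_natDegree_eq_zero h0
    rw [h4, Polynomial.map_C, Polynomial.eval_C] at hz
    apply h3
    rw [Polynomial.leadingCoeff, h0]
    exact hz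
  obtain ⟨d, hd⟩ : ∃ d, Θ.natDegree = d + 1 := ⟨Θ.natDegree - 1, by omega⟩
  -- the leading coefficient
  have hlcζ : aeval ζ Θ.leadingCoeff ≠ 0 := by
    intro h0
    obtain ⟨D, hD⟩ := hreg H1 (hnd _ hH1)
    obtain ⟨T, hT1, hT2, M, α, hM, hα, hball⟩ := hD 1
    have hlog : 0 < Real.log T := Real.log_pos (by linarith)
    obtain ⟨b1, -, -, b4⟩ := hball _ (mem_ball_self (by rw [one_mul]; exact hlog))
    set u : Fin n → ℂ := fun l => 2 * Real.pi * Complex.I * (M l : ℂ)
    have hpP := hptζ (pt m v u (α u)) (Complex.exp (α u)) b1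
    have hne : eval (oe (Complex.exp (α u)) (pt m v u (α u))) H1 ≠ 0 := by
      intro h
      rw [h, norm_zero, mul_zero] at b4
      linarith
    exact (ha _ hpP hne).1 (hpP _ h0)
  set a : MvPolynomial (Option (Fin n)) ℂ := H1 * Θ.leadingCoeff with had
  have haζ : aeval ζ a ≠ 0 := by rw [had, map_mul]; exact mul_ne_zero hH1 hlcζ
  obtain ⟨D, hD⟩ := hreg a (hnd a haζ)
  -- bounds
  obtain ⟨N1, hN1⟩ := poly_size_fin (σ := Option (Fin n)) D
    (fun o : Option (Fin (d + 2)) => o.elim H1 fun j => Θ.coeff j)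
  -- `N2` bounds the roots
  obtain ⟨N3, hN3⟩ := le_two_pow ((d : ℝ) + 3)
  set N2 : ℕ := N1 + (D + N1) + N3 with hN2
  have hGsize : ∀ k, ∃ N : ℕ, ∀ T : ℝ, 2 ≤ T → ∀ t : Option (Fin n) → ℂ, ∀ z : ℂ,
      (∀ i, ‖t i‖ ≤ T ^ D) → ‖z‖ ≤ T ^ N2 → ‖((g k).map (eval t)).eval z‖ ≤ T ^ N := by
    intro k
    obtain ⟨N, hN⟩ := poly_size (σ := Option (Option (Fin n))) (D + N2)
      ((optionEquivLeft ℂ (Option (Fin n))).symm (g k))
    refine ⟨N, fun T hT t z ht hz => ?_⟩
    have hT1 : (1 : ℝ) ≤ T := by linarith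
    have h1 := hN T hT (fun o => o.elim z t) (by
      rintro (_ | i)
      · exact hz.trans (pow_le_pow_right₀ hT1 (by omega))
      · exact (ht i).trans (pow_le_pow_right₀ hT1 (by omega)))
    have h2 : eval (fun o : Option (Option (Fin n)) => o.elim z t)
        ((optionEquivLeft ℂ (Option (Fin n))).symm (g k)) = ((g k).map (eval t)).eval z := by
      generalize g k = q
      induction q using Polynomial.induction_on' with
      | add p q hp hq => rw [map_add, map_add, hp, hq, Polynomial.map_add, Polynomial.eval_add]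
      | monomial j b =>
        rw [Polynomial.map_monomial, Polynomial.eval_monomial, ← Polynomial.C_mul_X_pow_eq_monomial,
          map_mul, map_pow]
        rw [show (optionEquivLeft ℂ (Option (Fin n))).symm Polynomial.X = X none by
          rw [AlgEquiv.symm_apply_eq, optionEquivLeft_X_none]]
        rw [show (optionEquivLeft ℂ (Option (Fin n))).symm (Polynomial.C b) = rename some b by
          rw [AlgEquiv.symm_apply_eq]
          induction b using MvPolynomial.induction_on with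
          | C c => simp [optionEquivLeft_C]
          | add p q hp hq => rw [map_add, hp, hq, map_add, map_add]
          | mul_X p i hp =>
            rw [map_mul, hp, map_mul, map_mul, rename_X, optionEquivLeft_X_some]]
        rw [map_mul, map_pow, eval_X, eval_rename]
        rfl
    rwa [h2] at h1
  choose NG hNG using hGsize
  set N4 : ℕ := ∑ k, NG k with hN4
  set N5 : ℕ := N4 + (D + N1) with hN5
  -- the constant for the projection
  set S : ℝ := 1 + (∑ l, |(m l : ℝ)|) * ∑ l, |(v l : ℝ)| with hS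
  have hS1 : 1 ≤ S := by
    have : 0 ≤ (∑ l, |(m l : ℝ)|) * ∑ l, |(v l : ℝ)| :=
      mul_nonneg (Finset.sum_nonneg fun _ _ => abs_nonneg _) (Finset.sum_nonneg fun _ _ => abs_nonneg _)
    rw [hS]; linarith
  set K : ℝ := 96 * S * N5 + 240 * S + 1 with hK
  have hN50 : (0 : ℝ) ≤ N5 := Nat.cast_nonneg _
  have hK0 : 0 < K := by rw [hK]; positivity
  obtain ⟨T, hKT, hT2, M, α, hM, hαd, hball⟩ := hD K
  have hT1 : 1 ≤ T := by linarith
  have hlog2 : (0.69 : ℝ) ≤ Real.log T := by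
    have := Real.log_le_log (by norm_num) hT2
    linarith [Real.log_two_gt_d9]
  have hlog : 0 < Real.log T := by linarith
  set c : Fin n → ℂ := fun l => 2 * Real.pi * Complex.I * (M l : ℂ) with hc'
  set ρ : ℝ := K * Real.log T with hρ
  have hρ0 : 0 < ρ := mul_pos hK0 hlog
  set U : Set (Fin n → ℂ) := ball c ρ with hU
  have hcU : c ∈ U := mem_ball_self hρ0
  set Xf : (Fin n → ℂ) → Fin n → ℂ := fun u => pt m v u (α u) with hXf
  set Yf : (Fin n → ℂ) → ℂ := fun u => Complex.exp (α u) with hYf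
  have hmud : Differentiable ℂ (mu m : (Fin n → ℂ) → ℂ) := by
    unfold mu
    exact Differentiable.fun_sum fun l _ => (differentiable_apply l).const_mul _
  have hXd : ∀ l, DifferentiableOn ℂ (fun u => Xf u l) U := by
    intro l
    simp only [hXf, pt]
    exact ((differentiable_apply l).differentiableOn.sub (hmud.differentiableOn.mul_const _)).add
      (hαd.mul_const _)
  have hYd : DifferentiableOn ℂ Yf U := hαd.cexp
  set t : (Fin n → ℂ) → Option (Fin n) → ℂ := fun u => oe (Yf u) (Xf u) with ht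
  have htP : ∀ u ∈ U, t u ∈ Pt ζ := fun u hu => hptζ _ _ (hball u hu).1
  have htd : ∀ i, DifferentiableOn ℂ (fun u => t u i) U := by
    rintro (_ | l)
    · exact hYd
    · exact hXd l
  have htb : ∀ u ∈ U, ∀ i, ‖t u i‖ ≤ T ^ D := by
    intro u hu i
    rcases i with _ | l
    · exact (hball u hu).2.2.1
    · exact (hball u hu).2.1 l
  have hta : ∀ u ∈ U, 1 ≤ T ^ D * (‖eval (t u) H1‖ * ‖eval (t u) Θ.leadingCoeff‖) := by
    intro u hu
    have := (hball u hu).2.2.2
    rwa [had, map_mul, norm_mul] at this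
  have hTp : ∀ k : ℕ, (0 : ℝ) < T ^ k := fun k => by positivity
  have hH1b : ∀ u ∈ U, ‖eval (t u) H1‖ ≤ T ^ N1 := fun u hu => hN1 T hT2 (t u) (htb u hu) none
  have hcb : ∀ u ∈ U, ∀ j, j < d + 2 → ‖eval (t u) (Θ.coeff j)‖ ≤ T ^ N1 := fun u hu j hj =>
    hN1 T hT2 (t u) (htb u hu) (some ⟨j, hj⟩)
  have hlcb : ∀ u ∈ U, ‖eval (t u) Θ.leadingCoeff‖ ≤ T ^ N1 := by
    intro u hu
    rw [Polynomial.leadingCoeff, hd]
    exact hcb u hu (d + 1) (by omega)
  have hH1low : ∀ u ∈ U, 1 ≤ T ^ (D + N1) * ‖eval (t u) H1‖ := by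
    intro u hu
    refine (hta u hu).trans ?_
    rw [pow_add]
    calc T ^ D * (‖eval (t u) H1‖ * ‖eval (t u) Θ.leadingCoeff‖)
        ≤ T ^ D * (‖eval (t u) H1‖ * T ^ N1) := by
          have := hlcb u hu
          have := (hTp D).le
          gcongr
      _ = _ := by ring
  have hlclow : ∀ u ∈ U, 1 ≤ T ^ (D + N1) * ‖eval (t u) Θ.leadingCoeff‖ := by
    intro u hu
    refine (hta u hu).trans ?_
    rw [pow_add]
    calc T ^ D * (‖eval (t u) H1‖ * ‖eval (t u) Θ.leadingCoeff‖)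
        ≤ T ^ D * (T ^ N1 * ‖eval (t u) Θ.leadingCoeff‖) := by
          have := hH1b u hu
          have := (hTp D).le
          gcongr
      _ = _ := by ring
  have htH : ∀ u ∈ U, eval (t u) H1 ≠ 0 := by
    intro u hu h0
    have := hH1low u hu
    rw [h0, norm_zero, mul_zero] at this
    linarith
  have hlc0 : ∀ u ∈ U, eval (t u) Θ.leadingCoeff ≠ 0 := by
    intro u hu h0
    have := hlclow u hu
    rw [h0, norm_zero, mul_zero] at this
    linarith
  -- the polynomial
  set F : (Fin n → ℂ) → ℂ → ℂ := fun u z => (Θ.map (eval (t u))).eval z with hF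
  have hcoeff : ∀ u j, (Θ.map (eval (t u))).coeff j = eval (t u) (Θ.coeff j) := fun u j =>
    Polynomial.coeff_map _ _
  have hcd : ∀ j, DifferentiableOn ℂ (fun u => eval (t u) (Θ.coeff j)) U := fun j =>
    Pool.Agent.Q239.EG.diff_eval htd (Θ.coeff j)
  have hdegu : ∀ u ∈ U, (Θ.map (eval (t u))).natDegree = Θ.natDegree := fun u hu =>
    Polynomial.natDegree_map_of_leadingCoeff_ne_zero _ (hlc0 u hu)
  have hFsum : ∀ u ∈ U, ∀ z, F u z = ∑ j ∈ Finset.range (d + 2), eval (t u) (Θ.coeff j) * z ^ j := by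
    intro u hu z
    simp only [hF]
    rw [Polynomial.eval_eq_sum_range, hdegu u hu, hd]
    simp only [hcoeff]
  have hFc : ContDiffOn ℂ 1 (fun p : (Fin n → ℂ) × ℂ => F p.1 p.2) (U ×ˢ Set.univ) := by
    have hopen : IsOpen (U ×ˢ (Set.univ : Set ℂ)) := isOpen_ball.prod isOpen_univ
    have h3 : DifferentiableOn ℂ (fun p : (Fin n → ℂ) × ℂ => F p.1 p.2) (U ×ˢ Set.univ) := by
      have h4 : DifferentiableOn ℂ (fun p : (Fin n → ℂ) × ℂ =>
          ∑ j ∈ Finset.range (d + 2), eval (t p.1) (Θ.coeff j) * p.2 ^ j) (U ×ˢ Set.univ) := by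
        refine DifferentiableOn.fun_sum fun j _ => ?_
        have h5 : DifferentiableOn ℂ (fun p : (Fin n → ℂ) × ℂ => eval (t p.1) (Θ.coeff j))
            (U ×ˢ Set.univ) :=
          (hcd j).comp differentiableOn_fst fun p hp => hp.1
        exact h5.mul (differentiableOn_snd.pow j)
      exact h4.congr fun p hp => hFsum p.1 hp.1 p.2
    exact_mod_cast Sq58.Holo.contDiffOn_of_differentiableOn hopen h3 1
  -- bounded roots
  have hroot : ∀ u ∈ U, ∀ z B, 0 ≤ B → ‖F u z‖ ≤ B →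
      ‖z‖ ≤ (B + (d + 1) * T ^ N1) * T ^ (D + N1) + 1 := by
    intro u hu z B hB hz
    have hm : 0 < (T ^ (D + N1))⁻¹ := inv_pos.2 (hTp _)
    have h1 := Pool.Agent.Q239.EG.root_bound (p := Θ.map (eval (t u))) (d := d)
      (by rw [hdegu u hu, hd]) hm hB (hTp N1).le (by
        rw [hcoeff]
        have := hlclow u hu
        rw [Polynomial.leadingCoeff, hd] at this
        rw [inv_le_iff_one_le_mul₀ (hTp _)]
        linarith [this, mul_comm (T ^ (D + N1)) ‖eval (t u) (Θ.coeff (d + 1))‖]) (by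
        intro j
        rw [hcoeff]
        by_cases hj : j < d + 2
        · exact hcb u hu j hj
        · rw [Polynomial.coeff_eq_zero_of_natDegree_lt (by omega), map_zero, norm_zero]
          exact (hTp N1).le) hz
    rwa [div_inv_eq_mul] at h1
  have hprop : ∀ C : Set (Fin n → ℂ), C ⊆ U → IsCompact C → ∀ B : ℝ, ∃ B' : ℝ, ∀ s ∈ C, ∀ z,
      ‖F s z‖ ≤ B → ‖z‖ ≤ B' := by
    intro C hCU _ B
    exact ⟨_, fun s hs z hz => hroot s (hCU hs) z |B| (abs_nonneg _) (hz.trans (le_abs_self _))⟩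
  have hsimple : ∀ s ∈ U, ∀ z, F s z = 0 → deriv (F s) z ≠ 0 := by
    intro s hs z hz
    have h3 := (ha (t s) (htP s hs) (htH s hs)).2 z hz
    simp only [hF]
    rwa [Polynomial.deriv]
  obtain ⟨z0, hz0⟩ : ∃ z0, F c z0 = 0 := by
    have h1 : (Θ.map (eval (t c))).degree ≠ 0 := by
      intro h
      have := Polynomial.natDegree_eq_zero_iff_degree_le_zero.2 h.le
      rw [hdegu c hcU, hd] at this
      omega
    exact IsAlgClosed.exists_root _ h1
  obtain ⟨Z, hZd, hZc, hZ, -⟩ := Pool.Agent.H713R3.ZA.ROOT.main U F isOpen_ball (convex_ball c ρ) hFc hprop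
    hsimple c hcU z0 hz0
  have hZb : ∀ u ∈ U, ‖Z u‖ ≤ T ^ N2 := by
    intro u hu
    have h1 := hroot u hu (Z u) 0 le_rfl (by rw [hZ u hu, norm_zero])
    refine h1.trans ?_
    have e1 : (1 : ℝ) ≤ T ^ N1 := one_le_pow₀ hT1
    have e2 : (1 : ℝ) ≤ T ^ (D + N1) := one_le_pow₀ hT1
    have e3 : (d : ℝ) + 3 ≤ T ^ N3 := hN3.trans (pow_le_pow_left₀ (by norm_num) hT2 _)
    have e4 : 1 ≤ T ^ N1 * T ^ (D + N1) := by nlinarith
    calc (0 + ((d : ℝ) + 1) * T ^ N1) * T ^ (D + N1) + 1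
        = ((d : ℝ) + 1) * (T ^ N1 * T ^ (D + N1)) + 1 := by ring
      _ ≤ ((d : ℝ) + 3) * (T ^ N1 * T ^ (D + N1)) := by nlinarith
      _ ≤ T ^ N3 * (T ^ N1 * T ^ (D + N1)) := by gcongr
      _ = T ^ N2 := by rw [hN2, pow_add, pow_add]; ring
  -- the family
  set q : (Fin n → ℂ) → Fin n ⊕ (Fin n ⊕ Unit) → ℂ := fun u k =>
    ((g k).map (eval (t u))).eval (Z u) / eval (t u) H1 with hq
  have hqP : ∀ u ∈ U, Sum.elim (t u) (q u) ∈ Pt (Sum.elim ζ f) := fun u hu =>
    hc (t u) (htP u hu) (htH u hu) (Z u) (hZ u hu)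
  have hqb : ∀ u ∈ U, ∀ k, ‖q u k‖ ≤ T ^ N5 := by
    intro u hu k
    simp only [hq]
    rw [norm_div, div_le_iff₀ (norm_pos_iff.2 (htH u hu))]
    have h1 := hNG k T hT2 (t u) (Z u) (htb u hu) (hZb u hu)
    have h2 : T ^ NG k ≤ T ^ N4 := pow_le_pow_right₀ hT1
      (Finset.single_le_sum (fun _ _ => Nat.zero_le _) (Finset.mem_univ k))
    have h3 := hH1low u hu
    calc ‖((g k).map (eval (t u))).eval (Z u)‖ ≤ T ^ N4 := h1.trans h2
      _ = T ^ N4 * 1 := (mul_one _).symm
      _ ≤ T ^ N4 * (T ^ (D + N1) * ‖eval (t u) H1‖) := by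
        have := (hTp N4).le
        gcongr
      _ = _ := by rw [hN5, pow_add]; ring
  set yf : (Fin n → ℂ) → Fin n → ℂ := fun u l => q u (Sum.inl l) with hyf
  have hyd : ∀ l, DifferentiableOn ℂ (fun u => yf u l) U := by
    intro l
    simp only [hyf, hq, div_eq_mul_inv]
    refine DifferentiableOn.mul ?_ ((Pool.Agent.Q239.EG.diff_eval htd H1).inv htH)
    have h3 : ∀ p : Polynomial (MvPolynomial (Option (Fin n)) ℂ),
        DifferentiableOn ℂ (fun u => (p.map (eval (t u))).eval (Z u)) U := by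
      intro p
      induction p using Polynomial.induction_on' with
      | add p q hp hq =>
        simp only [Polynomial.map_add, Polynomial.eval_add]
        exact hp.add hq
      | monomial m a =>
        simp only [Polynomial.map_monomial, Polynomial.eval_monomial]
        exact (Pool.Agent.Q239.EG.diff_eval htd a).mul (hZd.pow m)
    exact h3 _
  have hyinv : ∀ u ∈ U, ∀ l, q u (Sum.inl l) * q u (Sum.inr (Sum.inl l)) = 1 := by
    intro u hu l
    have := hqP u hu (MvPolynomial.X (Sum.inr (Sum.inl l)) *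
      MvPolynomial.X (Sum.inr (Sum.inr (Sum.inl l))) - 1) (by
      simp only [map_sub, map_mul, aeval_X, map_one, Sum.elim_inr, hf, Sum.elim_inl]
      rw [mul_inv_cancel₀ (hy l), sub_self])
    simp only [map_sub, map_mul, eval_X, map_one, Sum.elim_inr] at this
    linear_combination this
  have hyn : ∀ u ∈ U, ∀ l, yf u l ≠ 0 := by
    intro u hu l h
    have := hyinv u hu l
    rw [hyf] at h
    simp only at h
    rw [h, zero_mul] at this
    exact zero_ne_one this
  have hyinv' : ∀ u ∈ U, ∀ l, q u (Sum.inr (Sum.inl l)) = (yf u l)⁻¹ := fun u hu l =>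
    eq_inv_of_mul_eq_one_right (hyinv u hu l)
  -- the sizes of the `y`
  have hlogy : ∀ u ∈ U, ∀ l, |Real.log ‖yf u l‖| ≤ N5 * Real.log T := by
    intro u hu l
    have h0 : 0 < ‖yf u l‖ := norm_pos_iff.2 (hyn u hu l)
    have h1 : ‖yf u l‖ ≤ T ^ N5 := hqb u hu (Sum.inl l)
    have h2 : ‖yf u l‖⁻¹ ≤ T ^ N5 := by
      rw [← norm_inv, ← hyinv' u hu l]
      exact hqb u hu _
    have h3 := Real.log_le_log h0 h1
    have h4 := Real.log_le_log (inv_pos.2 h0) h2
    rw [Real.log_pow] at h3 h4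
    rw [Real.log_inv] at h4
    rw [abs_le]
    constructor <;> linarith
  -- relation for the monomial
  have hmon : ∀ u ∈ U, ∏ l, yf u l ^ m l = Yf u := by
    intro u hu
    have h1 := hqP u hu ((∏ l, (MvPolynomial.X (Sum.inr (Sum.inl l)) ^ (m l).toNat *
      MvPolynomial.X (Sum.inr (Sum.inr (Sum.inl l))) ^ (-(m l)).toNat)) -
      MvPolynomial.X (Sum.inl none)) (by
      simp only [map_sub, map_prod, map_mul, map_pow, aeval_X, Sum.elim_inr, Sum.elim_inl, hf, hζ, oe_none]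
      rw [hηd, prod_zpow_rel y hy m, sub_self])
    simp only [map_sub, map_prod, map_mul, map_pow, eval_X, Sum.elim_inr, Sum.elim_inl, ht, oe_none] at h1
    rw [prod_zpow_rel (yf u) (hyn u hu) m]
    rw [← sub_eq_zero, ← h1]
    congr 1
    refine Finset.prod_congr rfl fun l _ => ?_
    rw [hyinv' u hu l]
  -- the logarithms
  have hex : ∀ l : Fin n, ∃ h : (Fin n → ℂ) → ℂ, DifferentiableOn ℂ h (ball c ρ) ∧
      (∀ u ∈ ball c ρ, Complex.exp (h u) = yf u l) ∧ |(h c).im| ≤ Real.pi := fun l =>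
    Pool.Agent.Q177.EG.log n c ρ (fun u => yf u l) hρ0 (hyd l) fun u hu => hyn u hu l
  choose h hhd hhe hhc using hex
  set B : ℝ := N5 * Real.log T with hB
  have hB0 : 0 ≤ B := mul_nonneg hN50 hlog.le
  have hre : ∀ l, ∀ u ∈ ball c ρ, |(h l u).re| ≤ B := by
    intro l u hu
    have e1 : Real.exp ((h l u).re) = ‖yf u l‖ := by
      rw [← Complex.norm_exp, hhe l u hu]
    have e2 : (h l u).re = Real.log ‖yf u l‖ := by rw [← e1, Real.log_exp]
    rw [e2]
    exact hlogy u hu l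
  have hbd : ∀ l, ∀ u ∈ ball c (ρ / 2), ‖h l u‖ ≤ 6 * B + 10 := fun l =>
    Pool.Agent.Q177.EG.bc n c ρ B (h l) hρ0 hB0 (hhd l) (hre l) (hhc l)
  have hsub : ball c (ρ / 2) ⊆ ball c ρ := ball_subset_ball (by linarith)
  -- projection
  set hh : (Fin n → ℂ) → Fin n → ℂ := fun u l => h l u - (∑ k, (m k : ℂ) * h k u) * (v l : ℂ) with hhh
  have hhd' : DifferentiableOn ℂ hh (ball c (ρ / 2)) := by
    rw [differentiableOn_pi]
    intro l
    refine ((hhd l).mono hsub).sub (DifferentiableOn.mul_const ?_ _)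
    exact DifferentiableOn.fun_sum fun k _ => ((hhd k).mono hsub).const_mul _
  have hhb : ∀ u ∈ ball c (ρ / 2), ‖hh u‖ ≤ S * (6 * B + 10) := by
    intro u hu
    refine (pi_norm_le_iff_of_nonneg (by positivity)).2 fun l => ?_
    have h1 := hbd l u hu
    have h2 : ‖∑ k, (m k : ℂ) * h k u‖ ≤ (∑ k, |(m k : ℝ)|) * (6 * B + 10) := by
      refine (norm_sum_le _ _).trans ?_
      rw [Finset.sum_mul]
      refine Finset.sum_le_sum fun k _ => ?_
      rw [norm_mul]
      have : ‖(m k : ℂ)‖ = |(m k : ℝ)| := by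
        rw [Complex.norm_intCast]
      rw [this]
      exact mul_le_mul_of_nonneg_left (hbd k u hu) (abs_nonneg _)
    have h3 : ‖(v l : ℂ)‖ ≤ ∑ k, |(v k : ℝ)| := by
      rw [Complex.norm_intCast]
      exact Finset.single_le_sum (f := fun k => |(v k : ℝ)|) (fun _ _ => abs_nonneg _) (Finset.mem_univ l)
    have h4 : 0 ≤ ∑ k, |(m k : ℝ)| := Finset.sum_nonneg fun _ _ => abs_nonneg _
    calc ‖hh u l‖ ≤ ‖h l u‖ + ‖(∑ k, (m k : ℂ) * h k u) * (v l : ℂ)‖ := norm_sub_le _ _
      _ ≤ (6 * B + 10) + ((∑ k, |(m k : ℝ)|) * (6 * B + 10)) * ∑ k, |(v k : ℝ)| := by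
        rw [norm_mul]
        gcongr
      _ = S * (6 * B + 10) := by rw [hS]; ring
  obtain ⟨u, hu, hfix⟩ := Pool.Agent.Q252.EG.fix n c (ρ / 2) (S * (6 * B + 10)) hh (by linarith)
    hhd' hhb (by
      rw [hρ, hB, hK]
      have h1 : (0 : ℝ) ≤ S * N5 := by positivity
      have h2 : S * 80 ≤ S * 120 * Real.log T := by nlinarith
      nlinarith)
  have hu' := hsub hu
  -- the solution
  have hmuc : mu m c = 0 := by
    have h1 : ∑ l, (m l : ℂ) * (M l : ℂ) = 0 := by exact_mod_cast hM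
    simp only [mu, hc']
    calc ∑ l, (m l : ℂ) * (2 * Real.pi * Complex.I * (M l : ℂ)) =
        (2 * Real.pi * Complex.I) * ∑ l, (m l : ℂ) * (M l : ℂ) := by
          rw [Finset.mul_sum]; exact Finset.sum_congr rfl fun l _ => by ring
      _ = 0 := by rw [h1, mul_zero]
  have hmv' : ∑ l, (m l : ℂ) * (v l : ℂ) = 1 := by exact_mod_cast hmv
  set s : ℂ := ∑ k, (m k : ℂ) * h k u with hs
  have hmuu : mu m u = 0 := by
    rw [hfix, mu_add, hmuc, zero_add]
    simp only [mu, hhh, mul_sub, Finset.sum_sub_distrib]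
    rw [← hs]
    have : ∑ l, (m l : ℂ) * (s * (v l : ℂ)) = s * ∑ l, (m l : ℂ) * (v l : ℂ) := by
      rw [Finset.mul_sum]; exact Finset.sum_congr rfl fun l _ => by ring
    rw [this, hmv', mul_one, sub_self]
  have hexps : Complex.exp s = Complex.exp (α u) := by
    have h1 : Complex.exp s = ∏ l, yf u l ^ m l := by
      rw [hs, Complex.exp_sum]
      refine Finset.prod_congr rfl fun l _ => ?_
      rw [Complex.exp_int_mul, hhe l u hu']
    rw [h1, hmon u hu']
  obtain ⟨k, hk⟩ := Complex.exp_eq_exp_iff_exists_int.1 hexps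
  have hXu : ∀ l, Xf u l = 2 * Real.pi * Complex.I * (M l : ℂ) + h l u +
      -(((k * v l : ℤ) : ℂ) * (2 * Real.pi * Complex.I)) := by
    intro l
    have h1 := congrFun hfix l
    simp only [Pi.add_apply, hc', hhh] at h1
    simp only [hXf, pt, hmuu, zero_mul, sub_zero]
    rw [h1, ← hs]
    push_cast
    rw [hk]
    ring
  have hexp : (fun l => Complex.exp (Xf u l)) = yf u := by
    funext l
    have e2 : Complex.exp (2 * Real.pi * Complex.I * (M l : ℂ)) = 1 := by
      have := Complex.exp_int_mul_two_pi_mul_I (M l)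
      rw [← this]; congr 1; ring
    rw [hXu l, Complex.exp_add, Complex.exp_add, e2, one_mul, hhe l u hu', Complex.exp_neg,
      Complex.exp_int_mul_two_pi_mul_I, inv_one, mul_one]
  -- transport of relations
  set r : Fin n ⊕ Fin n → Option (Fin n) ⊕ (Fin n ⊕ (Fin n ⊕ Unit)) :=
    Sum.elim (fun l => Sum.inl (some l)) (fun l => Sum.inr (Sum.inl l)) with hr
  have hrE : (Sum.elim ζ f) ∘ r = Sum.elim x y := by
    funext i
    rcases i with l | l
    · simp [hr, hζ]
    · simp [hr, hf]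
  have hrC : (Sum.elim (t u) (q u)) ∘ r = Sum.elim (Xf u) (yf u) := by
    funext i
    rcases i with l | l
    · simp [hr, ht]
    · simp [hr, hyf]
  refine ⟨Xf u, ?_, ?_⟩
  · rw [hexp]
    intro g' hg'
    have := hqP u hu' (rename r g') (by rw [aeval_rename, hrE]; exact hg')
    rwa [eval_rename, hrC] at this
  · rw [hexp]
    intro h0
    have := hqP u hu' (rename r H * MvPolynomial.X (Sum.inr (Sum.inr (Sum.inr ()))) - 1) (by
      simp only [map_sub, map_mul, aeval_X, map_one, Sum.elim_inr, hf]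
      have hE : aeval (Sum.elim ζ (Sum.elim y (Sum.elim (fun l => (y l)⁻¹)
          (fun _ => (aeval (Sum.elim x y) H)⁻¹)))) (rename r H) = aeval (Sum.elim x y) H := by
        rw [← hf, aeval_rename, hrE]
      rw [hE, mul_inv_cancel₀ hH, sub_self])
    simp only [map_sub, map_mul, eval_X, map_one, Sum.elim_inr] at this
    rw [eval_rename, hrC, h0, zero_mul, zero_sub, neg_eq_zero] at this
    exact one_ne_zero this

end field

end Pool.Agent.Helper57.RA
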