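import Pool.Agent.Helper57.RA.Geo
import Pool.Agent.Helper57.RA.AX
import Pool.Agent.Helper57.RA.Solve

/-!
Project RA (helper57): flat regions.
-/

set_option autoImplicit false

namespace Pool.Agent.Helper57.RA

open MvPolynomial Filter Topology Metric Pool.Agent.W996.EC Pool.Agent.Q72.EG

variable {n : ℕ}

/-- a polynomial in holomorphic functions is holomorphic -/
theorem diff_eval' {W : Type} [NormedAddCommGroup W] [NormedSpace ℂ W] {σ : Type} {U : Set W}
    {t : W → σ → ℂ} (ht : ∀ i, DifferentiableOn ℂ (fun u => t u i) U) (g : MvPolynomial σ ℂ) :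
    DifferentiableOn ℂ (fun u => eval (t u) g) U := by
  induction g using MvPolynomial.induction_on with
  | C c => simp only [eval_C]; exact differentiableOn_const c
  | add p q hp hq => simp only [map_add]; exact hp.add hq
  | mul_X p i hp => simp only [map_mul, eval_X]; exact hp.mul (ht i)

theorem pt_shift (m v : Fin n → ℤ) (hmv : ∑ l, m l * v l = 1) (u : Fin n → ℂ) (β w : ℂ) :
    pt m v (fun l => u l + β * (v l : ℂ)) w = pt m v u w := by
  have h1 : ∑ l, (m l : ℂ) * (v l : ℂ) = 1 := by exact_mod_cast hmv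
  have h2 : mu m (fun l => u l + β * (v l : ℂ)) = mu m u + β := by
    simp only [mu, mul_add, Finset.sum_add_distrib]
    congr 1
    calc ∑ l, (m l : ℂ) * (β * (v l : ℂ)) = β * ∑ l, (m l : ℂ) * (v l : ℂ) := by
          rw [Finset.mul_sum]; exact Finset.sum_congr rfl fun l _ => by ring
      _ = β := by rw [h1, mul_one]
  funext l
  simp only [pt, h2]
  ring

theorem norm_pt_le (m v : Fin n → ℤ) (u : Fin n → ℂ) (w : ℂ) {B R : ℝ} (hu : ∀ l, ‖u l‖ ≤ B)
    (hw : ‖w‖ ≤ R) (l : Fin n) :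
    ‖pt m v u w l‖ ≤ B + (∑ k, |(m k : ℝ)|) * B * (∑ k, |(v k : ℝ)|) + R * ∑ k, |(v k : ℝ)| := by
  have hB : 0 ≤ B := (norm_nonneg _).trans (hu l)
  have hR : 0 ≤ R := (norm_nonneg _).trans hw
  have h3 : ‖(v l : ℂ)‖ ≤ ∑ k, |(v k : ℝ)| := by
    rw [Complex.norm_intCast]
    exact Finset.single_le_sum (f := fun k => |(v k : ℝ)|) (fun _ _ => abs_nonneg _) (Finset.mem_univ l)
  have h4 : 0 ≤ ∑ k, |(m k : ℝ)| := Finset.sum_nonneg fun _ _ => abs_nonneg _
  have h2 : ‖mu m u‖ ≤ (∑ k, |(m k : ℝ)|) * B := by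
    unfold mu
    refine (norm_sum_le _ _).trans ?_
    rw [Finset.sum_mul]
    refine Finset.sum_le_sum fun k _ => ?_
    rw [norm_mul, Complex.norm_intCast]
    exact mul_le_mul_of_nonneg_left (hu k) (abs_nonneg _)
  calc ‖pt m v u w l‖ ≤ ‖u l - mu m u * (v l : ℂ)‖ + ‖w * (v l : ℂ)‖ := norm_add_le _ _
    _ ≤ (‖u l‖ + ‖mu m u * (v l : ℂ)‖) + ‖w * (v l : ℂ)‖ := by
      have := norm_sub_le (u l) (mu m u * (v l : ℂ)); linarith
    _ ≤ (B + (∑ k, |(m k : ℝ)|) * B * (∑ k, |(v k : ℝ)|)) + R * ∑ k, |(v k : ℝ)| := by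
      rw [norm_mul, norm_mul]
      gcongr
      exact hu l

/-- **flat regions** -/
theorem flat_region {P : MvPolynomial (Fin n) ℂ} (hP : Irreducible P) {m v : Fin n → ℤ}
    (hmv : ∑ l, m l * v l = 1) (hnc : ∀ c : ℂ, ¬ P ∣ linm m - C c) {e μ : ℕ}
    (hdeg : ∀ j, ((qq m v P).coeff j).totalDegree ≤ e) (hμ : 1 ≤ μ)
    (hne : homogeneousComponent e ((qq m v P).coeff μ) ≠ 0) : HasFlatRegion P m v := by
  intro a ha
  obtain ⟨κ0, r, t0, R, N, A, hr, hN, hAd, hA⟩ := bounded_root hP hdeg hμ hne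
  have hNr : (0 : ℝ) < N := by exact_mod_cast hN
  set B0 := ball (ik κ0) r with hB0
  set C0 : ℝ := ‖ik κ0‖ + r with hC0
  have hzC : ∀ z ∈ B0, ∀ l, ‖z l‖ ≤ C0 := by
    intro z hz l
    refine (norm_le_pi_norm z l).trans ?_
    have h1 : ‖z‖ ≤ ‖z - ik κ0‖ + ‖ik κ0‖ := by
      have := norm_add_le (z - ik κ0) (ik κ0)
      rwa [sub_add_cancel] at this
    have h2 : ‖z - ik κ0‖ < r := by rw [← dist_eq_norm]; exact hz
    rw [hC0]; linarith
  have hC00 : 0 ≤ C0 := by rw [hC0]; positivity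
  set Sm : ℝ := ∑ k, |(m k : ℝ)| with hSm
  set Sv : ℝ := ∑ k, |(v k : ℝ)| with hSv
  have hSm0 : 0 ≤ Sm := Finset.sum_nonneg fun _ _ => abs_nonneg _
  have hSv0 : 0 ≤ Sv := Finset.sum_nonneg fun _ _ => abs_nonneg _
  set C1 : ℝ := C0 + Sm * C0 * Sv + |R| * Sv with hC1
  have hC10 : 0 ≤ C1 := by rw [hC1]; positivity
  set T0 : ℝ := 2 + C1 + Real.exp R with hT0
  have hT02 : 2 ≤ T0 := by rw [hT0]; linarith [Real.exp_pos R]
  set t0' : ℝ := min t0 (-Real.log T0) with ht0'
  set X : (Fin n → ℂ) → ℂ → Fin n → ℂ := fun z t => pt m v (fun l => Complex.exp (-t) * z l) (A (z, t)) with hX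
  set τ : (Fin n → ℂ) → ℂ → Option (Fin n) → ℂ := fun z t => oe (Complex.exp (A (z, t))) (X z t) with hτ
  set G : (Fin n → ℂ) → ℂ → ℂ := fun z t => eval (τ z t) a with hG
  have htt0 : ∀ t : ℂ, t.re < t0' → t.re < t0 := fun t ht => ht.trans_le (min_le_left _ _)
  have hTt : ∀ t : ℂ, t.re < t0' → T0 < Real.exp (-t.re) := by
    intro t ht
    have h1 : t.re < -Real.log T0 := ht.trans_le (min_le_right _ _)
    rw [← Real.exp_log (show 0 < T0 by linarith)]
    exact Real.exp_lt_exp.2 (by linarith)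
  have hcoord : ∀ z ∈ B0, ∀ t : ℂ, t.re < t0' → ∀ o, ‖τ z t o‖ ≤ Real.exp (-t.re) ^ 2 := by
    intro z hz t ht o
    set T := Real.exp (-t.re) with hT
    have hT1 : T0 < T := hTt t ht
    have hA1 := (hA z hz t (htt0 t ht)).2.1
    rcases o with _ | l
    · show ‖Complex.exp (A (z, t))‖ ≤ T ^ 2
      rw [Complex.norm_exp]
      have h1 : (A (z, t)).re ≤ R := (Complex.re_le_norm _).trans hA1
      have h2 := Real.exp_le_exp.2 h1
      have h3 : Real.exp R ≤ T0 := by rw [hT0]; linarith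
      nlinarith
    · show ‖X z t l‖ ≤ T ^ 2
      have h1 : ∀ l, ‖Complex.exp (-t) * z l‖ ≤ T * C0 := by
        intro l
        rw [norm_mul, Complex.norm_exp, Complex.neg_re]
        exact mul_le_mul_of_nonneg_left (hzC z hz l) (Real.exp_pos _).le
      have h2 := norm_pt_le m v (fun l => Complex.exp (-t) * z l) (A (z, t)) h1 (hA1.trans (le_abs_self R)) l
      refine h2.trans ?_
      have h3 : C1 ≤ T := by
        have : C1 ≤ T0 := by rw [hT0]; linarith [Real.exp_pos R]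
        linarith
      have hTp : 1 ≤ T := by linarith
      calc T * C0 + Sm * (T * C0) * Sv + |R| * Sv
          ≤ T * C0 + Sm * (T * C0) * Sv + |R| * Sv * T := by
            have : 0 ≤ |R| * Sv := by positivity
            nlinarith
        _ = T * C1 := by rw [hC1]; ring
        _ ≤ T ^ 2 := by nlinarith
  obtain ⟨N1, hN1⟩ := poly_size (σ := Option (Fin n)) 2 a
  have hGb : ∀ z ∈ B0, ∀ t : ℂ, t.re < t0' → ‖G z t‖ ≤ Real.exp (-t.re) ^ N1 := by
    intro z hz t ht
    exact hN1 _ (by linarith [hTt t ht]) _ (hcoord z hz t ht)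
  set Φ : (Fin n → ℂ) → ℂ → ℂ := fun z t => Complex.exp t ^ N1 * G z t with hΦ
  have hH : {t : ℂ | t.re < t0'} ⊆ {t : ℂ | t.re < t0} := fun t ht => htt0 t ht
  have hAz : ∀ t : ℂ, t.re < t0' → DifferentiableOn ℂ (fun z => A (z, t)) B0 := by
    intro t ht
    refine hAd.comp (by fun_prop) fun z hz => ⟨hz, htt0 t ht⟩
  have hAt : ∀ z ∈ B0, DifferentiableOn ℂ (fun t => A (z, t)) {t : ℂ | t.re < t0'} := by
    intro z hz
    refine hAd.comp (by fun_prop) fun t ht => ⟨hz, htt0 t ht⟩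
  have h1 : ∀ t : ℂ, t.re < t0' → DifferentiableOn ℂ (fun z => Φ z t) B0 := by
    intro t ht
    refine DifferentiableOn.const_mul ?_ _
    refine diff_eval' ?_ a
    rintro (_ | l)
    · exact (hAz t ht).cexp
    · show DifferentiableOn ℂ (fun z => X z t l) B0
      have h2 : DifferentiableOn ℂ (fun z : Fin n → ℂ => Complex.exp (-t) * z l -
          (∑ l, (m l : ℂ) * (Complex.exp (-t) * z l)) * (v l : ℂ)) B0 := by fun_prop
      exact h2.add ((hAz t ht).mul_const _)
  have h2 : ∀ z ∈ B0, DifferentiableOn ℂ (Φ z) {t | t.re < t0'} := by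
    intro z hz
    refine DifferentiableOn.mul (by fun_prop) ?_
    refine diff_eval' ?_ a
    rintro (_ | l)
    · exact (hAt z hz).cexp
    · show DifferentiableOn ℂ (fun t => X z t l) {t : ℂ | t.re < t0'}
      have h2 : Differentiable ℂ (fun t : ℂ => Complex.exp (-t) * z l -
          (∑ l, (m l : ℂ) * (Complex.exp (-t) * z l)) * (v l : ℂ)) := by fun_prop
      exact h2.differentiableOn.add ((hAt z hz).mul_const _)
  have h3 : ∀ z ∈ B0, ∀ t : ℂ, t.re < t0' → ‖Φ z t‖ ≤ 1 := by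
    intro z hz t ht
    simp only [hΦ]
    rw [norm_mul, norm_pow, Complex.norm_exp]
    calc Real.exp t.re ^ N1 * ‖G z t‖ ≤ Real.exp t.re ^ N1 * Real.exp (-t.re) ^ N1 := by
          have := hGb z hz t ht
          gcongr
      _ = 1 := by rw [← mul_pow, ← Real.exp_add, add_neg_cancel, Real.exp_zero, one_pow]
  have hexpN : ∀ t : ℂ, Complex.exp (t + 2 * Real.pi * Complex.I * N) = Complex.exp t := by
    intro t
    have : t + 2 * Real.pi * Complex.I * N = t + ((N : ℤ) : ℂ) * (2 * Real.pi * Complex.I) := by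
      push_cast; ring
    rw [this, Complex.exp_add, Complex.exp_int_mul_two_pi_mul_I, mul_one]
  have h4 : ∀ z ∈ B0, ∀ t : ℂ, t.re < t0' → Φ z (t + 2 * Real.pi * Complex.I * N) = Φ z t := by
    intro z hz t ht
    have e1 := (hA z hz t (htt0 t ht)).2.2
    have e2 : Complex.exp (-(t + 2 * Real.pi * Complex.I * N)) = Complex.exp (-t) := by
      rw [Complex.exp_neg, hexpN, ← Complex.exp_neg]
    simp only [hΦ, hG, hτ, hX]
    rw [hexpN, e1, e2]
  have h5 : ∃ z ∈ B0, ∃ t : ℂ, t.re < t0' ∧ Φ z t ≠ 0 := by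
    set ts : ℝ := t0' - 1 with hts
    have htsre : ((ts : ℝ) : ℂ).re < t0' := by rw [Complex.ofReal_re]; rw [hts]; linarith
    set Ts : ℝ := Real.exp (-ts) with hTs
    have hTsp : 0 < Ts := Real.exp_pos _
    have hex : Complex.exp (-(ts : ℂ)) = (Ts : ℂ) := by rw [hTs]; push_cast; rfl
    set α : (Fin n → ℂ) → ℂ := fun u => A (fun l => (Ts : ℂ)⁻¹ * u l, (ts : ℂ)) with hα
    have hin : ∀ u ∈ ball (fun l => (Ts : ℂ) * ik κ0 l) (Ts * r), (fun l => (Ts : ℂ)⁻¹ * u l) ∈ B0 := by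
      intro u hu
      rw [hB0, mem_ball, dist_pi_lt_iff hr]
      intro l
      have h1 := (dist_pi_lt_iff (mul_pos hTsp hr)).1 (mem_ball.1 hu) l
      rw [dist_eq_norm] at h1 ⊢
      have h2 : (Ts : ℂ)⁻¹ * u l - ik κ0 l = (Ts : ℂ)⁻¹ * (u l - (Ts : ℂ) * ik κ0 l) := by
        have : (Ts : ℂ) ≠ 0 := by exact_mod_cast hTsp.ne'
        field_simp
      rw [h2, norm_mul, norm_inv, Complex.norm_real, Real.norm_eq_abs, abs_of_pos hTsp,
        inv_mul_lt_iff₀ hTsp]
      exact h1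
    have hptu : ∀ (u : Fin n → ℂ), (fun l => Complex.exp (-(ts : ℂ)) * ((Ts : ℂ)⁻¹ * u l)) = u := by
      intro u
      funext l
      rw [hex, ← mul_assoc, mul_inv_cancel₀ (by exact_mod_cast hTsp.ne'), one_mul]
    obtain ⟨u, hu, hune⟩ := ax_ne hP hmv hnc ha (c := fun l => (Ts : ℂ) * ik κ0 l) (r := Ts * r)
      (mul_pos hTsp hr) (α := α) (by
        refine DifferentiableOn.comp (g := fun z => A (z, (ts : ℂ))) (hAz _ htsre) ?_ hin
        rw [differentiableOn_pi]
        intro l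
        fun_prop) (by
        intro u hu
        have := (hA _ (hin u hu) _ (htt0 _ htsre)).1
        rw [hptu] at this
        exact this)
    refine ⟨_, hin u hu, _, htsre, ?_⟩
    refine mul_ne_zero (pow_ne_zero _ (Complex.exp_ne_zero _)) ?_
    simp only [hG, hτ, hX]
    rw [hptu]
    exact hune
  obtain ⟨k, κ1, r1, t1, c, hr1, hc, ht1, hsub, hlow⟩ := lower hN h1 h2 h3 h4 h5
  obtain ⟨N3, hN3⟩ := le_two_pow c⁻¹
  set D : ℕ := k + N3 + 2 with hD
  refine ⟨D, fun K => ?_⟩
  -- the choice of `T`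
  obtain ⟨T, hTK, hTT0, hTt1, hTlog⟩ : ∃ T : ℝ, K ≤ T ∧ T0 < T ∧ -Real.log T < t1 ∧
      K * Real.log T + 4 < r1 * T := by
    have e1 : ∀ᶠ T : ℝ in atTop, K ≤ T := eventually_ge_atTop K
    have e2 : ∀ᶠ T : ℝ in atTop, T0 < T := eventually_gt_atTop T0
    have e3 : ∀ᶠ T : ℝ in atTop, -Real.log T < t1 := by
      filter_upwards [Real.tendsto_log_atTop.eventually (eventually_gt_atTop (-t1))] with T hT
      linarith
    have e4 : ∀ᶠ T : ℝ in atTop, K * Real.log T + 4 < r1 * T := by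
      have a1 : (fun T : ℝ => K * Real.log T) =o[atTop] (fun T : ℝ => T) :=
        Real.isLittleO_log_id_atTop.const_mul_left K
      have a2 : (fun _ : ℝ => (4 : ℝ)) =o[atTop] (fun T : ℝ => T) :=
        Asymptotics.isLittleO_const_id_atTop (4 : ℝ)
      have a3 := (a1.add a2).bound (show 0 < r1 / 2 by linarith)
      filter_upwards [a3, eventually_gt_atTop 0] with T hT hT0
      rw [Real.norm_eq_abs, Real.norm_eq_abs, abs_of_pos hT0] at hT
      have := (le_abs_self _).trans hT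
      nlinarith
    obtain ⟨T, hT⟩ := (e1.and (e2.and (e3.and e4))).exists
    exact ⟨T, hT.1, hT.2.1, hT.2.2.1, hT.2.2.2⟩
  have hT2 : 2 ≤ T := by linarith
  have hT1 : 1 ≤ T := by linarith
  have hTp : 0 < T := by linarith
  have hTc : (T : ℂ) ≠ 0 := by exact_mod_cast hTp.ne'
  refine ⟨T, hTK, hT2, ?_⟩
  set M' : Fin n → ℤ := fun l => round (T * κ1 l / (2 * Real.pi)) with hM'
  set s : ℤ := ∑ l, m l * M' l with hs
  set M : Fin n → ℤ := fun l => M' l - s * v l with hM
  set β : ℂ := 2 * Real.pi * Complex.I * (s : ℂ) with hβ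
  set t : ℂ := ((-Real.log T : ℝ) : ℂ) with ht
  have htre : t.re = -Real.log T := Complex.ofReal_re _
  have htlt1 : t.re < t1 := by rw [htre]; exact hTt1
  have hexpt : Complex.exp (-t) = (T : ℂ) := by
    rw [ht]; push_cast
    rw [neg_neg, ← Complex.ofReal_exp, Real.exp_log hTp]
  have hexpr : Real.exp (-t.re) = T := by rw [htre, neg_neg, Real.exp_log hTp]
  set c0 : Fin n → ℂ := fun l => 2 * Real.pi * Complex.I * (M l : ℂ) with hc0
  set Zf : (Fin n → ℂ) → Fin n → ℂ := fun u l => (T : ℂ)⁻¹ * (u l + β * (v l : ℂ)) with hZf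
  have hin : ∀ u ∈ ball c0 (K * Real.log T), Zf u ∈ ball (ik κ1) r1 := by
    intro u hu
    rw [mem_ball, dist_pi_lt_iff hr1]
    intro l
    have hKp : 0 < K * Real.log T := pos_of_mem_ball hu
    have b1 := (dist_pi_lt_iff hKp).1 (mem_ball.1 hu) l
    rw [dist_eq_norm] at b1 ⊢
    have b2 : ‖(2 * Real.pi * Complex.I * (M' l : ℂ) : ℂ) - (T : ℂ) * ik κ1 l‖ ≤ 4 := by
      have e1 : (2 * Real.pi * Complex.I * (M' l : ℂ) : ℂ) - (T : ℂ) * ik κ1 l =
          Complex.I * ((2 * Real.pi * ((M' l : ℝ) - T * κ1 l / (2 * Real.pi)) : ℝ) : ℂ) := by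
        simp only [ik]
        push_cast
        have : (Real.pi : ℂ) ≠ 0 := by exact_mod_cast Real.pi_ne_zero
        field_simp
      rw [e1, norm_mul, Complex.norm_I, one_mul, Complex.norm_real, Real.norm_eq_abs, abs_mul,
        abs_of_pos Real.two_pi_pos]
      have e2 : |(M' l : ℝ) - T * κ1 l / (2 * Real.pi)| ≤ 1 / 2 := by
        rw [abs_sub_comm]
        exact abs_sub_round _
      have := Real.pi_lt_four
      nlinarith [Real.pi_pos]
    have b3 : Zf u l - ik κ1 l = (T : ℂ)⁻¹ * ((u l - c0 l) +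
        (2 * Real.pi * Complex.I * (M' l : ℂ) - (T : ℂ) * ik κ1 l)) := by
      simp only [hZf, hc0, hβ, hM]
      push_cast
      field_simp
      ring
    rw [b3, norm_mul, norm_inv, Complex.norm_real, Real.norm_eq_abs, abs_of_pos hTp,
      inv_mul_lt_iff₀ hTp]
    refine (norm_add_le _ _).trans_lt ?_
    linarith [mul_comm r1 T]
  have hZin : ∀ u ∈ ball c0 (K * Real.log T), Zf u ∈ B0 := fun u hu => hsub (hin u hu)
  have htre0 : t.re < t0' := htlt1.trans_le ht1
  have hptu : ∀ (u : Fin n → ℂ) (w : ℂ),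
      pt m v (fun l => Complex.exp (-t) * Zf u l) w = pt m v u w := by
    intro u w
    rw [← pt_shift m v hmv u β w]
    congr 1
    funext l
    simp only [hZf]
    rw [hexpt, ← mul_assoc, mul_inv_cancel₀ hTc, one_mul]
  refine ⟨M, fun u => A (Zf u, t), ?_, ?_, ?_⟩
  · simp only [hM, mul_sub, Finset.sum_sub_distrib]
    rw [← hs]
    have : ∑ l, m l * (s * v l) = s * ∑ l, m l * v l := by
      rw [Finset.mul_sum]; exact Finset.sum_congr rfl fun l _ => by ring
    rw [this, hmv, mul_one, sub_self]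
  · refine DifferentiableOn.comp (g := fun z => A (z, t)) (hAz t htre0) ?_ hZin
    rw [differentiableOn_pi]
    intro l
    simp only [hZf]
    fun_prop
  · intro u hu
    have hz := hZin u hu
    have a1 := (hA _ hz t (htt0 t htre0)).1
    rw [hptu] at a1
    have a2 := hcoord _ hz t htre0
    rw [hexpr] at a2
    have hpow : T ^ 2 ≤ T ^ D := pow_le_pow_right₀ hT1 (by omega)
    refine ⟨a1, fun l => ?_, ?_, ?_⟩
    · have := a2 (some l)
      simp only [hτ, oe_some, hX] at this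
      rw [hptu] at this
      exact this.trans hpow
    · have := a2 none
      simp only [hτ, oe_none] at this
      exact this.trans hpow
    · have b1 := hlow _ (hin u hu) (-Real.log T) hTt1
      have b2 : Φ (Zf u) t = Complex.exp t ^ N1 *
          eval (oe (Complex.exp (A (Zf u, t))) (pt m v u (A (Zf u, t)))) a := by
        simp only [hΦ, hG, hτ, hX]
        rw [hptu]
      rw [← ht, b2, norm_mul, norm_pow, Complex.norm_exp, htre] at b1
      have b3 : Real.exp (-Real.log T) ≤ 1 := Real.exp_le_one_iff.2 (by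
        have := Real.log_nonneg hT1
        linarith)
      have b4 : Real.exp (-Real.log T) ^ N1 ≤ 1 := pow_le_one₀ (Real.exp_pos _).le b3
      have b5 : T⁻¹ ≤ Real.exp (-Real.log T / N) := by
        rw [← Real.exp_log (inv_pos.2 hTp), Real.log_inv]
        apply Real.exp_le_exp.2
        rw [le_div_iff₀ hNr]
        have h1N : (1 : ℝ) ≤ N := by exact_mod_cast hN
        have := Real.log_nonneg hT1
        nlinarith
      have b6 : c * T⁻¹ ^ k ≤ ‖eval (oe (Complex.exp (A (Zf u, t))) (pt m v u (A (Zf u, t)))) a‖ := by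
        calc c * T⁻¹ ^ k ≤ c * Real.exp (-Real.log T / N) ^ k := by
              have := inv_pos.2 hTp
              gcongr
          _ ≤ _ := b1
          _ ≤ 1 * ‖eval (oe (Complex.exp (A (Zf u, t))) (pt m v u (A (Zf u, t)))) a‖ := by
              gcongr
          _ = _ := one_mul _
      have b7 : 1 ≤ c * T ^ N3 := by
        have h1 : c⁻¹ ≤ T ^ N3 := hN3.trans (pow_le_pow_left₀ (by norm_num) hT2 _)
        rw [inv_le_iff_one_le_mul₀ hc] at h1
        linarith
      calc (1 : ℝ) ≤ c * T ^ N3 := b7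
        _ ≤ c * T ^ N3 * T ^ 2 := le_mul_of_one_le_right (by positivity) (one_le_pow₀ hT1)
        _ = T ^ D * (c * T⁻¹ ^ k) := by
          rw [hD, pow_add, pow_add, inv_pow]
          field_simp
        _ ≤ _ := by gcongr

end Pool.Agent.Helper57.RA
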