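import Pool.Graph.R_pool_sql_team_seeded_3997aac3.Q72.EG.All

/-!
Project RA (helper57, MP_209724_lc): exponential points on varieties over hypersurfaces whose
leading form has a rational linear factor.  Definitions and basic facts.
-/

set_option autoImplicit false

namespace Pool.Agent.Helper57.RA

open MvPolynomial Filter Topology Metric Pool.Agent.W996.EC Pool.Agent.Q72.EG

variable {n : ℕ}

/-- the linear form `m · u` -/
noncomputable def mu (m : Fin n → ℤ) (u : Fin n → ℂ) : ℂ := ∑ l, (m l : ℂ) * u l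

/-- the point `u - (m · u) v + w v` -/
noncomputable def pt (m v : Fin n → ℤ) (u : Fin n → ℂ) (w : ℂ) : Fin n → ℂ :=
  fun l => u l - mu m u * (v l : ℂ) + w * (v l : ℂ)

/-- the linear form as a polynomial -/
noncomputable def linm (m : Fin n → ℤ) : MvPolynomial (Fin n) ℂ := ∑ l, C (m l : ℂ) * X l

@[simp] theorem eval_linm (m : Fin n → ℤ) (u : Fin n → ℂ) : eval u (linm m) = mu m u := by
  simp [linm, mu]

/-- the polynomial `P (x - (m · x) v + W v)` in `W` -/
noncomputable def qq (m v : Fin n → ℤ) (P : MvPolynomial (Fin n) ℂ) :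
    Polynomial (MvPolynomial (Fin n) ℂ) :=
  aeval (fun l => Polynomial.C (X l - linm m * C (v l : ℂ)) +
    Polynomial.X * Polynomial.C (C (v l : ℂ))) P

theorem eval_qq (m v : Fin n → ℤ) (P : MvPolynomial (Fin n) ℂ) (u : Fin n → ℂ) (w : ℂ) :
    ((qq m v P).map (eval u)).eval w = eval (pt m v u w) P := by
  unfold qq
  induction P using MvPolynomial.induction_on with
  | C c =>
    rw [aeval_C, eval_C]
    rw [show (algebraMap ℂ (Polynomial (MvPolynomial (Fin n) ℂ))) c = Polynomial.C (C c) from rfl]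
    simp
  | add p q hp hq => rw [map_add, Polynomial.map_add, Polynomial.eval_add, hp, hq, map_add]
  | mul_X p i hp =>
    rw [map_mul, Polynomial.map_mul, Polynomial.eval_mul, hp, map_mul, aeval_X, eval_X]
    congr 1
    simp [pt]

theorem mu_add (m : Fin n → ℤ) (u u' : Fin n → ℂ) : mu m (u + u') = mu m u + mu m u' := by
  simp [mu, mul_add, Finset.sum_add_distrib]

theorem mu_smul (m : Fin n → ℤ) (c : ℂ) (u : Fin n → ℂ) : mu m (c • u) = c * mu m u := by
  simp only [mu, Finset.mul_sum, Pi.smul_apply, smul_eq_mul]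
  exact Finset.sum_congr rfl fun l _ => by ring

theorem mu_pt (m v : Fin n → ℤ) (hmv : ∑ l, m l * v l = 1) (u : Fin n → ℂ) (w : ℂ) :
    mu m (pt m v u w) = w := by
  have h1 : ∑ l, (m l : ℂ) * (v l : ℂ) = 1 := by exact_mod_cast hmv
  have : mu m (pt m v u w) = mu m u - mu m u * ∑ l, (m l : ℂ) * (v l : ℂ) +
      w * ∑ l, (m l : ℂ) * (v l : ℂ) := by
    simp only [mu, pt, Finset.mul_sum]
    rw [← Finset.sum_sub_distrib, ← Finset.sum_add_distrib]
    exact Finset.sum_congr rfl fun l _ => by ring
  rw [this, h1]; ring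

theorem pt_mu (m v : Fin n → ℤ) (u : Fin n → ℂ) : pt m v u (mu m u) = u := by
  funext l; simp [pt]

/-- a nonzero polynomial has nonzero values in every ball -/
theorem exists_mem_ball {g : MvPolynomial (Fin n) ℂ} (hg : g ≠ 0) (c : Fin n → ℂ) {r : ℝ}
    (hr : 0 < r) : ∃ u ∈ ball c r, eval u g ≠ 0 := by
  by_contra h
  push Not at h
  apply hg
  refine MvPolynomial.funext_set (fun l => ball (c l) r) (fun l => ?_) fun x hx => ?_
  · exact infinite_of_mem_nhds (c l) (isOpen_ball.mem_nhds (mem_ball_self hr))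
  · rw [map_zero]
    apply h
    rw [ball_pi _ hr]
    exact hx

end Pool.Agent.Helper57.RA
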