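import Pool.Agent.Helper57.RA.Flat
import Pool.Agent.Helper57.RA.Inf

/-!
Project RA (helper57): assembly.
-/

set_option autoImplicit false

namespace Pool.Agent.Helper57.RA

open MvPolynomial Filter Topology Metric Pool.Agent.W996.EC Pool.Agent.Q72.EG

variable {n : ℕ} {E : Type} [Field E]

theorem prod_neg (y : Fin n → E) (m : Fin n → ℤ) :
    ∏ l, y l ^ (- m l) = (∏ l, y l ^ m l)⁻¹ := by
  rw [← Finset.prod_inv_distrib]
  exact Finset.prod_congr rfl fun l _ => zpow_neg _ _

variable [Algebra ℂ E]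

theorem trans_neg {K : IntermediateField ℂ E} {y : Fin n → E} {m : Fin n → ℤ}
    (h : Transcendental K (∏ l, y l ^ m l)) : Transcendental K (∏ l, y l ^ (- m l)) := by
  rw [prod_neg]
  intro h1
  apply h
  have := h1.inv
  rwa [inv_inv] at this

/-- primitive case, in the function field -/
theorem flat_core {P : MvPolynomial (Fin n) ℂ} (hP : Irreducible P) {x y : Fin n → E}
    (hx : ∀ g : MvPolynomial (Fin n) ℂ, aeval x g = 0 ↔ P ∣ g) (hy : ∀ l, y l ≠ 0)
    (htr : Tr1 x) {m v : Fin n → ℤ} (hmv : ∑ l, m l * v l = 1)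
    (hη : Transcendental (IntermediateField.adjoin ℂ (Set.range x)) (∏ l, y l ^ m l))
    (hlead : linm m ∣ homogeneousComponent P.totalDegree P) (hnc : ∀ c : ℂ, ¬ P ∣ linm m - C c)
    {H : MvPolynomial (Fin n ⊕ Fin n) ℂ} (hH : aeval (Sum.elim x y) H ≠ 0) :
    ∃ z : Fin n → ℂ, Sum.elim z (fun l => Complex.exp (z l)) ∈ Pt (Sum.elim x y) ∧
      eval (Sum.elim z (fun l => Complex.exp (z l))) H ≠ 0 := by
  classical
  by_contra hcon
  have hno : NoExp x y H := by
    intro z hz
    by_contra h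
    exact hcon ⟨z, hz, h⟩
  apply hcon
  obtain ⟨G1, e1, e2, e3, h1⟩ := all_ends n E P x y hP hx hy htr m hη
  obtain ⟨G2, e4, e5, e6, h2⟩ := all_ends n E P x y hP hx hy htr (fun l => - m l) (trans_neg hη)
  have h2' : 0 < ∑ l, (m l : ℝ) * G2.a l := by
    have : ∑ l, ((- m l : ℤ) : ℝ) * G2.a l = - ∑ l, (m l : ℝ) * G2.a l := by
      rw [← Finset.sum_neg_distrib]
      exact Finset.sum_congr rfl fun l _ => by push_cast; ring
    rw [this] at h2
    linarith
  have hstar : ∀ q, LimInf P q → Star {G1.a} q ∧ Star {G2.a} q := by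
    intro q hq
    refine ⟨all_core n E G1 H (by rw [e2, e3]; exact hH) (by rw [e2, e3]; exact hno) q
      (by rw [e1]; exact hq), all_core n E G2 H (by rw [e5, e6]; exact hH)
      (by rw [e5, e6]; exact hno) q (by rw [e4]; exact hq)⟩
  -- the leading form
  set d := P.totalDegree with hd
  have htop : homogeneousComponent d P ≠ 0 := Pool.Agent.Q98.EG.homog_ne_zero hP.ne_zero
  have hqt : qq m v (homogeneousComponent d P) ≠ 0 := qq_ne_zero htop
  have hex : ∃ j, (qq m v (homogeneousComponent d P)).coeff j ≠ 0 := by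
    by_contra h
    push Not at h
    exact hqt (Polynomial.ext h)
  set μ := Nat.find hex with hμ
  have hμ1 : (qq m v (homogeneousComponent d P)).coeff μ ≠ 0 := Nat.find_spec hex
  have hμ2 : ∀ j < μ, (qq m v (homogeneousComponent d P)).coeff j = 0 := by
    intro j hj
    by_contra h
    exact Nat.find_min hex hj h
  have hμd : μ ≤ d := by
    have h3 := deg_qq m v (homogeneousComponent d P) μ hμ1
    have h4 := (homogeneousComponent_isHomogeneous d P).totalDegree_le
    omega
  have hμ0 : 1 ≤ μ := by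
    by_contra h
    have h0 : μ = 0 := by omega
    rw [h0] at hμ1
    apply hμ1
    apply MvPolynomial.funext
    intro u
    rw [map_zero]
    obtain ⟨g, hg⟩ := hlead
    have h3 := eval_qq m v (homogeneousComponent d P) u 0
    rw [hg, map_mul, eval_linm, mu_pt m v hmv, zero_mul, ← hg] at h3
    rw [← Polynomial.coeff_zero_eq_eval_zero, Polynomial.coeff_map] at h3
    exact h3
  have hne : homogeneousComponent (d - μ) ((qq m v P).coeff μ) ≠ 0 := by
    rw [hom_qq, Nat.sub_add_cancel hμd]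
    exact hμ1
  have hlow : ∀ j < μ, homogeneousComponent (P.totalDegree - j) ((qq m v P).coeff j) = 0 := by
    intro j hj
    rw [hom_qq, ← hd, Nat.sub_add_cancel (by omega)]
    exact hμ2 j hj
  have hdeg := newton_bound hmv h1 h2' hstar (show d - μ + μ = P.totalDegree by omega) hne hlow
  exact solve hP hx hy htr hmv hη (flat_region hP hmv hnc hdeg hμ0 hne) hH

/-- general integral vectors -/
theorem flat_core' {P : MvPolynomial (Fin n) ℂ} (hP : Irreducible P) {x y : Fin n → E}
    (hx : ∀ g : MvPolynomial (Fin n) ℂ, aeval x g = 0 ↔ P ∣ g) (hy : ∀ l, y l ≠ 0)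
    (htr : Tr1 x) {m : Fin n → ℤ} (hm0 : m ≠ 0)
    (hη : Transcendental (IntermediateField.adjoin ℂ (Set.range x)) (∏ l, y l ^ m l))
    (hlead : linm m ∣ homogeneousComponent P.totalDegree P) (hnc : ∀ c : ℂ, ¬ P ∣ linm m - C c)
    {H : MvPolynomial (Fin n ⊕ Fin n) ℂ} (hH : aeval (Sum.elim x y) H ≠ 0) :
    ∃ z : Fin n → ℂ, Sum.elim z (fun l => Complex.exp (z l)) ∈ Pt (Sum.elim x y) ∧
      eval (Sum.elim z (fun l => Complex.exp (z l))) H ≠ 0 := by
  classical
  obtain ⟨i, hi⟩ : ∃ i, m i ≠ 0 := by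
    by_contra h
    push Not at h
    exact hm0 (funext h)
  obtain ⟨m', hm', hgcd⟩ := Finset.extract_gcd m ⟨i, Finset.mem_univ i⟩
  set g : ℤ := Finset.univ.gcd m with hg
  have hg0 : g ≠ 0 := by
    intro h
    have := hm' i (Finset.mem_univ i)
    rw [h, zero_mul] at this
    exact hi this
  obtain ⟨v, hv⟩ : ∃ v : Fin n → ℤ, ∑ l, m' l * v l = 1 := by
    obtain ⟨f, hf⟩ := Finset.gcd_eq_sum_mul Finset.univ m'
    refine ⟨f, ?_⟩
    rw [hgcd] at hf
    rw [hf]
  have hlin : linm m = C (g : ℂ) * linm m' := by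
    unfold linm
    rw [Finset.mul_sum]
    refine Finset.sum_congr rfl fun l hl => ?_
    rw [hm' l hl, ← mul_assoc, ← C_mul]
    push_cast
    rfl
  have hgc : (g : ℂ) ≠ 0 := by exact_mod_cast hg0
  refine flat_core hP hx hy htr hv ?_ ?_ ?_ hH
  · intro h1
    apply hη
    have h2 : ∏ l, y l ^ m l = (∏ l, y l ^ m' l) ^ g := by
      rw [← Finset.prod_zpow]
      refine Finset.prod_congr rfl fun l hl => ?_
      rw [hm' l hl, mul_comm, zpow_mul]
    rw [h2]
    rcases Int.eq_nat_or_neg g with ⟨k, hk | hk⟩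
    · rw [hk, zpow_natCast]; exact h1.pow k
    · rw [hk, zpow_neg, zpow_natCast]; exact (h1.pow k).inv
  · refine dvd_trans ?_ hlead
    rw [hlin]
    exact dvd_mul_left _ _
  · intro c hc
    refine hnc (g * c) ?_
    rw [hlin, C_mul, ← mul_sub]
    exact hc.mul_left _

end Pool.Agent.Helper57.RA
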