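import Pool.Agent.Helper57.RA.Def

/-!
Project RA (helper57): the grading of `P (x - (m · x) v + W v)`.
-/

set_option autoImplicit false

namespace Pool.Agent.Helper57.RA

open MvPolynomial Filter Topology Metric Pool.Agent.W996.EC Pool.Agent.Q72.EG

variable {n : ℕ}

/-- all terms have weight `k` -/
def Wt (Q : Polynomial (MvPolynomial (Fin n) ℂ)) (k : ℕ) : Prop :=
  ∀ j s, coeff s (Q.coeff j) ≠ 0 → s.degree + j = k

theorem Wt.zero (k : ℕ) : Wt (0 : Polynomial (MvPolynomial (Fin n) ℂ)) k := by
  intro j s h; simp at h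

theorem Wt.add {Q R : Polynomial (MvPolynomial (Fin n) ℂ)} {k : ℕ} (h1 : Wt Q k) (h2 : Wt R k) :
    Wt (Q + R) k := by
  intro j s h
  rw [Polynomial.coeff_add, coeff_add] at h
  by_cases h3 : coeff s (Q.coeff j) = 0
  · rw [h3, zero_add] at h; exact h2 j s h
  · exact h1 j s h3

theorem Wt.sum {ι : Type} (S : Finset ι) {Q : ι → Polynomial (MvPolynomial (Fin n) ℂ)} {k : ℕ}
    (h : ∀ i ∈ S, Wt (Q i) k) : Wt (∑ i ∈ S, Q i) k := by
  classical
  induction S using Finset.induction_on with
  | empty => simpa using Wt.zero k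
  | insert a S ha ih =>
    rw [Finset.sum_insert ha]
    exact (h a (Finset.mem_insert_self a S)).add (ih fun i hi => h i (Finset.mem_insert_of_mem hi))

theorem Wt.mul {Q R : Polynomial (MvPolynomial (Fin n) ℂ)} {k l : ℕ} (h1 : Wt Q k) (h2 : Wt R l) :
    Wt (Q * R) (k + l) := by
  classical
  intro j s h
  rw [Polynomial.coeff_mul, coeff_sum] at h
  obtain ⟨x, hx, hx0⟩ := Finset.exists_ne_zero_of_sum_ne_zero h
  rw [coeff_mul] at hx0
  obtain ⟨y, hy, hy0⟩ := Finset.exists_ne_zero_of_sum_ne_zero hx0
  have e1 := h1 x.1 y.1 (left_ne_zero_of_mul hy0)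
  have e2 := h2 x.2 y.2 (right_ne_zero_of_mul hy0)
  rw [Finset.HasAntidiagonal.mem_antidiagonal] at hx hy
  rw [← hy, ← hx, map_add]
  omega

theorem Wt.one : Wt (1 : Polynomial (MvPolynomial (Fin n) ℂ)) 0 := by
  classical
  intro j s h
  rw [Polynomial.coeff_one] at h
  split_ifs at h with hj
  · rw [coeff_one] at h
    split_ifs at h with hs
    · rw [← hs, hj]; simp
    · exact absurd rfl h
  · simp at h

theorem Wt.pow {Q : Polynomial (MvPolynomial (Fin n) ℂ)} {k : ℕ} (h1 : Wt Q k) (r : ℕ) :
    Wt (Q ^ r) (k * r) := by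
  induction r with
  | zero => simpa using Wt.one
  | succ r ih => rw [pow_succ, mul_add, mul_one]; exact ih.mul h1

theorem Wt.prod {ι : Type} (S : Finset ι) {Q : ι → Polynomial (MvPolynomial (Fin n) ℂ)}
    {k : ι → ℕ} (h : ∀ i ∈ S, Wt (Q i) (k i)) : Wt (∏ i ∈ S, Q i) (∑ i ∈ S, k i) := by
  classical
  induction S using Finset.induction_on with
  | empty => simpa using Wt.one
  | insert a S ha ih =>
    rw [Finset.prod_insert ha, Finset.sum_insert ha]
    exact (h a (Finset.mem_insert_self a S)).mul (ih fun i hi => h i (Finset.mem_insert_of_mem hi))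

theorem Wt.C (c : ℂ) : Wt (Polynomial.C (MvPolynomial.C c) : Polynomial (MvPolynomial (Fin n) ℂ)) 0 := by
  classical
  intro j s h
  rw [Polynomial.coeff_C] at h
  split_ifs at h with hj
  · rw [coeff_C] at h
    split_ifs at h with hs
    · rw [← hs, hj]; simp
    · exact absurd rfl h
  · simp at h

theorem wt_lin (m v : Fin n → ℤ) (l : Fin n) :
    Wt (Polynomial.C (MvPolynomial.X l - linm m * MvPolynomial.C (v l : ℂ)) +
    Polynomial.X * Polynomial.C (MvPolynomial.C (v l : ℂ))) 1 := by
  classical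
  refine Wt.add ?_ ?_
  · intro j s h
    rw [Polynomial.coeff_C] at h
    split_ifs at h with hj
    · have h1 : (MvPolynomial.X l - linm m * MvPolynomial.C (v l : ℂ) : MvPolynomial (Fin n) ℂ).IsHomogeneous 1 := by
        refine (isHomogeneous_X _ _).sub ?_
        rw [mul_comm]
        refine IsHomogeneous.C_mul ?_ _
        unfold linm
        exact IsHomogeneous.sum _ _ _ fun i _ => (isHomogeneous_X _ _).C_mul _
      have h2 := h1 h
      rw [hj, add_zero, Finsupp.degree_eq_weight_one]
      exact h2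
    · simp at h
  · rw [show (1 : ℕ) = 1 + 0 from rfl]
    refine Wt.mul ?_ (Wt.C _)
    intro j s h
    rw [Polynomial.coeff_X] at h
    split_ifs at h with hj
    · rw [coeff_one] at h
      split_ifs at h with hs
      · rw [← hs, ← hj]; simp
      · exact absurd rfl h
    · simp at h

theorem wt_qq (m v : Fin n → ℤ) {φ : MvPolynomial (Fin n) ℂ} {k : ℕ} (hφ : φ.IsHomogeneous k) :
    Wt (qq m v φ) k := by
  unfold qq
  rw [aeval_def, eval₂_eq']
  refine Wt.sum _ fun s hs => ?_
  have h1 : s.degree = k := by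
    rw [Finsupp.degree_eq_weight_one]
    exact hφ (mem_support_iff.1 hs)
  rw [← zero_add k]
  refine Wt.mul ?_ ?_
  · exact Wt.C _
  · rw [← h1, Finsupp.degree_eq_sum]
    refine Wt.prod _ fun l _ => ?_
    have := (wt_lin m v l).pow (s l)
    rwa [one_mul] at this

theorem qq_sum (m v : Fin n → ℤ) {ι : Type} (S : Finset ι) (f : ι → MvPolynomial (Fin n) ℂ) :
    qq m v (∑ i ∈ S, f i) = ∑ i ∈ S, qq m v (f i) := by
  unfold qq; rw [map_sum]

/-- **homogeneous components** -/
theorem hom_qq (m v : Fin n → ℤ) (P : MvPolynomial (Fin n) ℂ) (i j : ℕ) :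
    homogeneousComponent i ((qq m v P).coeff j) = (qq m v (homogeneousComponent (i + j) P)).coeff j := by
  classical
  ext s
  rw [coeff_homogeneousComponent]
  have hP : P = ∑ i ∈ Finset.range (P.totalDegree + 1), homogeneousComponent i P :=
    (sum_homogeneousComponent P).symm
  by_cases hs : s.degree = i
  · rw [if_pos hs]
    conv_lhs => rw [hP]
    rw [qq_sum, Polynomial.finsetSum_coeff, coeff_sum]
    have h1 : ∀ k, k ≠ i + j → coeff s ((qq m v (homogeneousComponent k P)).coeff j) = 0 := by
      intro k hk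
      by_contra h
      exact hk (by rw [← wt_qq m v (homogeneousComponent_isHomogeneous k P) j s h, hs])
    by_cases h2 : i + j < P.totalDegree + 1
    · rw [Finset.sum_eq_single (i + j)]
      · intro k _ hk; exact h1 k hk
      · intro h; exact absurd (Finset.mem_range.2 h2) h
    · rw [Finset.sum_eq_zero]
      · rw [homogeneousComponent_eq_zero]
        · simp [qq]
        · omega
      · intro k hk
        rw [Finset.mem_range] at hk
        exact h1 k (by omega)
  · rw [if_neg hs]
    by_contra h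
    have := wt_qq m v (homogeneousComponent_isHomogeneous (i + j) P) j s (Ne.symm h)
    omega

theorem deg_qq (m v : Fin n → ℤ) (P : MvPolynomial (Fin n) ℂ) (j : ℕ)
    (h : (qq m v P).coeff j ≠ 0) : ((qq m v P).coeff j).totalDegree + j ≤ P.totalDegree := by
  by_contra hcon
  have h1 := Pool.Agent.Q98.EG.homog_ne_zero h
  rw [hom_qq, homogeneousComponent_eq_zero _ _ (by omega)] at h1
  simp [qq] at h1

theorem qq_ne_zero {m v : Fin n → ℤ} {P : MvPolynomial (Fin n) ℂ} (hP : P ≠ 0) :
    qq m v P ≠ 0 := by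
  intro h
  apply hP
  apply MvPolynomial.funext
  intro u
  have := eval_qq m v P u (mu m u)
  rw [pt_mu, h] at this
  rw [← this]; simp

/-- invariance of the coefficients -/
theorem inv_qq {m v : Fin n → ℤ} (hmv : ∑ l, m l * v l = 1) (P : MvPolynomial (Fin n) ℂ)
    (u : Fin n → ℂ) (w : ℂ) (j : ℕ) :
    eval (pt m v u w) ((qq m v P).coeff j) = eval u ((qq m v P).coeff j) := by
  have h : (qq m v P).map (eval (pt m v u w)) = (qq m v P).map (eval u) := by
    apply Polynomial.funext
    intro z
    rw [eval_qq, eval_qq]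
    congr 1
    apply congrArg
    funext l
    show pt m v u w l - mu m (pt m v u w) * _ + _ = _
    rw [mu_pt m v hmv]
    simp only [pt]; ring
  have h2 := congrArg (fun p => Polynomial.coeff p j) h
  simpa [Polynomial.coeff_map] using h2

/-- the sum over the coefficients -/
theorem eval_eq_sum_qq (m v : Fin n → ℤ) (P : MvPolynomial (Fin n) ℂ) (u : Fin n → ℂ) :
    eval u P = ∑ j ∈ Finset.range ((qq m v P).natDegree + 1),
      eval u ((qq m v P).coeff j) * mu m u ^ j := by
  have h1 := eval_qq m v P u (mu m u)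
  rw [pt_mu] at h1
  rw [← h1, Polynomial.eval_eq_sum_range' (lt_of_le_of_lt (Polynomial.natDegree_map_le) (Nat.lt_succ_self _))]
  simp [Polynomial.coeff_map]

end Pool.Agent.Helper57.RA
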